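import Pool.Agent.W5h6.SW.Defs
import Pool.Agent.H153R4.Pl

set_option autoImplicit false

open MeasureTheory Set
open scoped Real FourierTransform ENNReal

namespace Pool.Agent.W5h6.SW

theorem norm_ee (x : ℝ) : ‖ee x‖ = 1 := by
  unfold ee
  rw [show (2 * (π : ℂ) * (x : ℂ) * Complex.I) = ((2 * π * x : ℝ) : ℂ) * Complex.I by push_cast; ring]
  exact Complex.norm_exp_ofReal_mul_I _

theorem continuous_ee : Continuous ee := by
  unfold ee
  fun_prop

theorem int_mul {f q : ℝ → ℂ} (hf : Integrable f) (hq : Continuous q) (C : ℝ)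
    (hb : ∀ x, ‖q x‖ ≤ C) : Integrable fun x => f x * q x := by
  have h1 := hf.bdd_mul (f := q) (c := C) hq.aestronglyMeasurable
    (Filter.Eventually.of_forall hb)
  have h2 : (fun x => q x * f x) = fun x => f x * q x := by
    funext x
    exact mul_comm _ _
  rw [← h2]
  exact h1

theorem int_mulR {f q : ℝ → ℝ} (hf : Integrable f) (hq : Continuous q) (C : ℝ)
    (hb : ∀ x, ‖q x‖ ≤ C) : Integrable fun x => f x * q x := by
  have h1 := hf.bdd_mul (f := q) (c := C) hq.aestronglyMeasurable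
    (Filter.Eventually.of_forall hb)
  have h2 : (fun x => q x * f x) = fun x => f x * q x := by
    funext x
    exact mul_comm _ _
  rw [← h2]
  exact h1

/-- The difference of the exponential sums and integrals. -/
noncomputable def Dl (k s R : ℕ) (θ : Fin s → ℝ) (τ : ℝ) : ℂ :=
  ∏ i, S k R τ (θ i) - J k R τ ^ s

theorem continuous_Dl {k : ℕ} (hT : S_TRIV k) (s R : ℕ) :
    Continuous fun p : (Fin s → ℝ) × ℝ => Dl k s R p.1 p.2 := by
  obtain ⟨-, -, hS, hJ, -⟩ := hT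
  unfold Dl
  have h1 : ∀ i : Fin s, Continuous fun p : (Fin s → ℝ) × ℝ => S k R p.2 (p.1 i) := by
    intro i
    exact (hS R).comp (continuous_snd.prodMk ((continuous_apply i).comp continuous_fst))
  have h2 : Continuous fun p : (Fin s → ℝ) × ℝ => J k R p.2 := (hJ R).comp continuous_snd
  exact (continuous_finsetProd _ fun i _ => h1 i).sub (h2.pow s)

theorem continuous_Dl' {k : ℕ} (hT : S_TRIV k) (s R : ℕ) (θ : Fin s → ℝ) :
    Continuous (Dl k s R θ) := by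
  have h1 : Continuous fun τ : ℝ => ((θ, τ) : (Fin s → ℝ) × ℝ) := by fun_prop
  exact Continuous.comp (g := fun p : (Fin s → ℝ) × ℝ => Dl k s R p.1 p.2)
    (f := fun τ : ℝ => ((θ, τ) : (Fin s → ℝ) × ℝ)) (continuous_Dl hT s R) h1

theorem norm_Dl_le {k : ℕ} (hT : S_TRIV k) (s R : ℕ) (θ : Fin s → ℝ) (τ : ℝ) :
    ‖Dl k s R θ τ‖ ≤ 2 * (3 * R : ℝ) ^ s := by
  obtain ⟨hS, hJ, -, -, -⟩ := hT
  unfold Dl
  refine (norm_sub_le _ _).trans ?_
  rw [norm_prod, norm_pow]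
  have h1 : ∏ i, ‖S k R τ (θ i)‖ ≤ (3 * R : ℝ) ^ s := by
    calc ∏ i, ‖S k R τ (θ i)‖ ≤ ∏ _i : Fin s, (3 * R : ℝ) :=
          Finset.prod_le_prod (fun i _ => norm_nonneg _) fun i _ => hS R τ (θ i)
      _ = (3 * R : ℝ) ^ s := by simp
  have h2 : ‖J k R τ‖ ^ s ≤ (3 * R : ℝ) ^ s := pow_le_pow_left₀ (norm_nonneg _) (hJ R τ) s
  linarith

/-- The high frequency part. -/
noncomputable def hh (k s R : ℕ) (h : ℝ) (θ : Fin s → ℝ) : ℝ → ℂ :=
  (Icc (-τ0 k R) (τ0 k R))ᶜ.indicator fun τ => g h τ * Dl k s R θ τ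

theorem integrable_gDl {k : ℕ} (hT : S_TRIV k) (hI : S_INV) (s R : ℕ) {h : ℝ} (hh0 : 0 < h)
    (θ : Fin s → ℝ) : Integrable fun τ => g h τ * Dl k s R θ τ := by
  have h1 := (hI.1 h hh0).2
  have h2 : Continuous (Dl k s R θ) := continuous_Dl' hT s R θ
  exact int_mul h1 h2 (2 * (3 * R : ℝ) ^ s) (norm_Dl_le hT s R θ)

theorem integrable_hh {k : ℕ} (hT : S_TRIV k) (hI : S_INV) (s R : ℕ) {h : ℝ} (hh0 : 0 < h)
    (θ : Fin s → ℝ) : Integrable (hh k s R h θ) :=
  (integrable_gDl hT hI s R hh0 θ).indicator measurableSet_Icc.compl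

theorem memLp_hh {k : ℕ} (hT : S_TRIV k) (hI : S_INV) (s R : ℕ) {h : ℝ} (hh0 : 0 < h)
    (θ : Fin s → ℝ) : MemLp (hh k s R h θ) 2 := by
  obtain ⟨c, hc, hI2⟩ := hI.2.1
  have h1 := (hI2 h hh0).2.1
  have hg := (hI.1 h hh0).1
  have h2 : Continuous (Dl k s R θ) := continuous_Dl' hT s R θ
  refine MemLp.indicator measurableSet_Icc.compl ?_
  have hm : AEStronglyMeasurable (fun τ => g h τ * Dl k s R θ τ) volume :=
    (hg.mul h2).aestronglyMeasurable
  rw [memLp_two_iff_integrable_sq_norm hm]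
  have h3 : Continuous fun τ => ‖Dl k s R θ τ‖ ^ 2 := h2.norm.pow 2
  have h4 : (fun τ => ‖g h τ * Dl k s R θ τ‖ ^ 2) =
      fun τ => ‖g h τ‖ ^ 2 * ‖Dl k s R θ τ‖ ^ 2 := by
    funext τ
    rw [norm_mul, mul_pow]
  rw [h4]
  refine int_mulR h1 h3 ((2 * (3 * R : ℝ) ^ s) ^ 2) fun τ => ?_
  rw [Real.norm_of_nonneg (by positivity)]
  exact pow_le_pow_left₀ (norm_nonneg _) (norm_Dl_le hT s R θ τ) 2

theorem split {k s : ℕ} (hT : S_TRIV k) (hI : S_INV) (hR : S_REP k s) (R : ℕ) {h : ℝ}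
    (hh0 : 0 < h) (θ : Fin s → ℝ) (t : ℝ) :
    ((cnt k s R h t θ : ℝ) : ℂ) - ((mu k s R h t : ℝ) : ℂ) =
      (∫ τ in Icc (-τ0 k R) (τ0 k R), g h τ * ee (-(τ * t)) * Dl k s R θ τ) +
        𝓕 (hh k s R h θ) t := by
  have hg := hI.1 h hh0
  obtain ⟨hS, hJ, hcS, hcJ, -⟩ := hT
  have hcont : Continuous fun τ => ee (-(τ * t)) := continuous_ee.comp (by fun_prop)
  have hP : Continuous fun τ => ∏ i, S k R τ (θ i) :=
    continuous_finsetProd _ fun i _ => (hcS R).comp (continuous_id.prodMk continuous_const)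
  have i1 : Integrable fun τ => g h τ * ee (-(τ * t)) * ∏ i, S k R τ (θ i) := by
    refine int_mul (int_mul hg.2 hcont 1 fun τ => (norm_ee _).le) hP ((3 * R : ℝ) ^ s) fun τ => ?_
    rw [norm_prod]
    calc ∏ i, ‖S k R τ (θ i)‖ ≤ ∏ _i : Fin s, (3 * R : ℝ) :=
          Finset.prod_le_prod (fun i _ => norm_nonneg _) fun i _ => hS R τ (θ i)
      _ = (3 * R : ℝ) ^ s := by simp
  have i2 : Integrable fun τ => g h τ * ee (-(τ * t)) * J k R τ ^ s := by
    refine int_mul (int_mul hg.2 hcont 1 fun τ => (norm_ee _).le) ((hcJ R).pow s)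
      ((3 * R : ℝ) ^ s) fun τ => ?_
    rw [norm_pow]
    exact pow_le_pow_left₀ (norm_nonneg _) (hJ R τ) s
  rw [hR.1 R h t θ hh0, hR.2 R h t hh0, ← integral_sub i1 i2]
  have e1 : (fun τ => g h τ * ee (-(τ * t)) * ∏ i, S k R τ (θ i) -
      g h τ * ee (-(τ * t)) * J k R τ ^ s) = fun τ => g h τ * ee (-(τ * t)) * Dl k s R θ τ := by
    funext τ
    unfold Dl
    ring
  rw [e1, ← integral_add_compl (measurableSet_Icc : MeasurableSet (Icc (-τ0 k R) (τ0 k R)))
    (by rw [← e1]; exact i1.sub i2)]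
  congr 1
  rw [Real.fourier_real_eq_integral_exp_smul, ← integral_indicator measurableSet_Icc.compl]
  refine integral_congr_ae (Filter.Eventually.of_forall fun τ => ?_)
  unfold hh
  by_cases hτ : τ ∈ (Icc (-τ0 k R) (τ0 k R))ᶜ
  · simp only [indicator_of_mem hτ, smul_eq_mul]
    have : Complex.exp (((-2 * π * τ * t : ℝ) : ℂ) * Complex.I) = ee (-(τ * t)) := by
      unfold ee
      congr 1
      push_cast
      ring
    rw [this]
    ring
  · simp only [indicator_of_notMem hτ, smul_zero]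

end Pool.Agent.W5h6.SW
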