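import Mathlib

/-! Waring's problem with almost all shifts: definitions and the statements of the lemmas. -/

set_option autoImplicit false

open MeasureTheory
open scoped Real FourierTransform

namespace Pool.Agent.W5h6.SW

/-- `e(x) = exp (2 π i x)`. -/
noncomputable def ee (x : ℝ) : ℂ := Complex.exp (2 * π * x * Complex.I)

/-- The exponential sum over the shifted `k`-th powers `(x + θ)^k`, `R ≤ x < 4 R`. -/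
noncomputable def S (k R : ℕ) (τ θ : ℝ) : ℂ :=
  ∑ x ∈ Finset.Ico R (4 * R), ee (τ * ((x : ℝ) + θ) ^ k)

/-- The corresponding integral. -/
noncomputable def J (k R : ℕ) (τ : ℝ) : ℂ := ∫ y in (R : ℝ)..(4 * R), ee (τ * y ^ k)

/-- The mean square of the sum over the shifts. -/
noncomputable def A (k R : ℕ) (τ : ℝ) : ℝ := ∫ θ in (0 : ℝ)..1, ‖S k R τ θ‖ ^ 2

/-- The end of the low frequencies. -/
noncomputable def τ0 (k R : ℕ) : ℝ := (R : ℝ) ^ ((3 : ℝ) / 4 - k)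

/-- A smooth bump: `0 ≤ f ≤ 1`, `f = 1` on `[-1/2, 1/2]`, `f = 0` outside `(-1, 1)`. -/
noncomputable def bump : ContDiffBump (0 : ℝ) := ⟨1 / 2, 1, by norm_num, by norm_num⟩

/-- Its Fourier transform. -/
noncomputable def F (τ : ℝ) : ℂ := 𝓕 (fun u : ℝ => ((bump u : ℝ) : ℂ)) τ

/-- The Fourier transform of `u ↦ bump (u / η)`. -/
noncomputable def g (η τ : ℝ) : ℂ := (η : ℂ) * F (η * τ)

/-- The weighted number of the `x` in `[R, 4 R)^s` with `∑ (x i + θ i)^k` near `t`. -/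
noncomputable def cnt (k s R : ℕ) (η t : ℝ) (θ : Fin s → ℝ) : ℝ :=
  ∑ x ∈ Fintype.piFinset (fun _ : Fin s => Finset.Ico R (4 * R)),
    bump ((∑ i, ((x i : ℝ) + θ i) ^ k - t) / η)

/-- Its expected value: the weighted volume. -/
noncomputable def mu (k s R : ℕ) (η t : ℝ) : ℝ :=
  ∫ y in Set.Icc (fun _ : Fin s => (R : ℝ)) (fun _ => 4 * (R : ℝ)),
    bump ((∑ i, y i ^ k - t) / η)

/-- (A) first derivative test after unfolding. -/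
def S_A (k : ℕ) : Prop := ∃ C : ℝ, 0 < C ∧ ∀ (R : ℕ) (τ : ℝ), 2 ≤ R → τ ≠ 0 →
  A k R τ ≤ C * ((R : ℝ) + Real.log R / (|τ| * (R : ℝ) ^ (k - 2)))

/-- (B1) -/
def S_J (k : ℕ) : Prop := ∃ C : ℝ, 0 < C ∧ ∀ (R : ℕ) (τ : ℝ), 1 ≤ R → τ ≠ 0 →
  ‖J k R τ‖ ≤ C / (|τ| * (R : ℝ) ^ (k - 1))

/-- (B2) -/
def S_SJ (k : ℕ) : Prop := ∃ C : ℝ, 0 < C ∧ ∀ (R : ℕ) (τ θ : ℝ), 1 ≤ R → θ ∈ Set.Icc (0 : ℝ) 1 →
  ‖S k R τ θ - J k R τ‖ ≤ C * (|τ| * (R : ℝ) ^ k)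

/-- (B3) trivial bounds and regularity -/
def S_TRIV (k : ℕ) : Prop :=
  (∀ (R : ℕ) (τ θ : ℝ), ‖S k R τ θ‖ ≤ 3 * R) ∧ (∀ (R : ℕ) (τ : ℝ), ‖J k R τ‖ ≤ 3 * R) ∧
  (∀ R : ℕ, Continuous fun p : ℝ × ℝ => S k R p.1 p.2) ∧ (∀ R : ℕ, Continuous fun τ => J k R τ) ∧
  (∀ (R : ℕ) (τ : ℝ), ‖J k R τ‖ ^ 2 ≤ A k R τ)

/-- (C) the low frequencies -/
def S_LOW (k s : ℕ) : Prop := ∃ C : ℝ, 0 < C ∧ ∀ (R : ℕ) (θ : Fin s → ℝ), 1 ≤ R →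
  (∀ i, θ i ∈ Set.Icc (0 : ℝ) 1) →
  ∫ τ in Set.Icc (-τ0 k R) (τ0 k R), ‖∏ i, S k R τ (θ i) - J k R τ ^ s‖ ≤
    C * (R : ℝ) ^ ((s : ℝ) - k - 1 / 2)

/-- (D) the high frequencies, in mean square over the shifts -/
def S_HIGH (k s : ℕ) : Prop := ∃ C : ℝ, 0 < C ∧ ∀ (R : ℕ) (η c : ℝ) (G : ℝ → ℂ), 2 ≤ R → 0 < η →
  0 < c → Continuous G → (∀ τ, ‖G τ‖ ≤ c * η) → Integrable (fun τ => ‖G τ‖ ^ 2) →
  ∫ τ, ‖G τ‖ ^ 2 ≤ c ^ 2 * η →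
  ∫⁻ θ in Set.Icc (0 : Fin s → ℝ) 1, ∫⁻ τ in (Set.Icc (-τ0 k R) (τ0 k R))ᶜ,
      ENNReal.ofReal ((‖G τ‖ * ‖∏ i, S k R τ (θ i) - J k R τ ^ s‖) ^ 2) ≤
    ENNReal.ofReal (C * c ^ 2 * Real.log R ^ s *
      (η * (R : ℝ) ^ s + η ^ 2 * (R : ℝ) ^ (2 * (s : ℝ) - k - 3 / 4 * (s - 1))))

/-- (E1) Fourier inversion for the bump -/
def S_INV : Prop :=
  (∀ η : ℝ, 0 < η → Continuous (g η) ∧ Integrable (g η)) ∧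
  (∃ c : ℝ, 0 < c ∧ ∀ η : ℝ, 0 < η → (∀ τ, ‖g η τ‖ ≤ c * η) ∧
    Integrable (fun τ => ‖g η τ‖ ^ 2) ∧ ∫ τ, ‖g η τ‖ ^ 2 ≤ c ^ 2 * η) ∧
  (∀ η u : ℝ, 0 < η → ((bump (u / η) : ℝ) : ℂ) = ∫ τ, g η τ * ee (τ * u))

/-- (E2) the Fourier integrals of the number and of the volume -/
def S_REP (k s : ℕ) : Prop :=
  (∀ (R : ℕ) (η t : ℝ) (θ : Fin s → ℝ), 0 < η →
    ((cnt k s R η t θ : ℝ) : ℂ) = ∫ τ, g η τ * ee (-(τ * t)) * ∏ i, S k R τ (θ i)) ∧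
  (∀ (R : ℕ) (η t : ℝ), 0 < η →
    ((mu k s R η t : ℝ) : ℂ) = ∫ τ, g η τ * ee (-(τ * t)) * J k R τ ^ s)

/-- (M) lower bound for the volume -/
def S_MU (k s : ℕ) : Prop := ∃ c : ℝ, 0 < c ∧ ∃ R₀ : ℕ, ∀ (R : ℕ) (η t : ℝ), R₀ ≤ R → 0 < η →
  η ≤ 1 → t ∈ Set.Icc (s * (1.4 * (R : ℝ)) ^ k) (s * (3.1 * (R : ℝ)) ^ k) →
  c * (η * (R : ℝ) ^ ((s : ℝ) - k)) ≤ mu k s R η t

end Pool.Agent.W5h6.SW
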