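import Pool.Agent.W5h6.SW.Defs

/-! Fourier inversion for the bump, and the Fourier integrals of the number and of the volume. -/

set_option autoImplicit false

open MeasureTheory
open scoped Real FourierTransform SchwartzMap ContDiff

namespace Pool.Agent.W5h6.SW

namespace PE

theorem bump_cd : ContDiff ℝ ∞ (fun u : ℝ => ((bump u : ℝ) : ℂ)) :=
  Complex.ofRealCLM.contDiff.comp bump.contDiff

theorem bump_cs : HasCompactSupport (fun u : ℝ => ((bump u : ℝ) : ℂ)) :=
  bump.hasCompactSupport.comp_left (g := fun x : ℝ => (x : ℂ)) Complex.ofReal_zero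

/-- the bump as a Schwartz function -/
noncomputable def bs : 𝓢(ℝ, ℂ) := bump_cs.toSchwartzMap bump_cd

theorem bs_apply (u : ℝ) : bs u = ((bump u : ℝ) : ℂ) := rfl

theorem F_eq (τ : ℝ) : F τ = (𝓕 bs : 𝓢(ℝ, ℂ)) τ := rfl

theorem F_cont : Continuous F := (𝓕 bs : 𝓢(ℝ, ℂ)).continuous

theorem F_int : Integrable F := (𝓕 bs : 𝓢(ℝ, ℂ)).integrable

theorem F_bd (τ : ℝ) : ‖F τ‖ ≤ SchwartzMap.seminorm ℝ 0 0 (𝓕 bs : 𝓢(ℝ, ℂ)) :=
  SchwartzMap.norm_le_seminorm ℝ (𝓕 bs : 𝓢(ℝ, ℂ)) τ

theorem F_sq : Integrable (fun τ => ‖F τ‖ ^ 2) := by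
  have h := (𝓕 bs : 𝓢(ℝ, ℂ)).memLp ((2 : ℕ) : ENNReal) volume
  exact h.integrable_norm_pow (by norm_num)

theorem norm_ee (x : ℝ) : ‖ee x‖ = 1 := by
  unfold ee
  have : (2 * π * x * Complex.I : ℂ) = ((2 * π * x : ℝ) : ℂ) * Complex.I := by push_cast; ring
  rw [this]
  exact Complex.norm_exp_ofReal_mul_I _

theorem ee_add (x y : ℝ) : ee (x + y) = ee x * ee y := by
  unfold ee
  rw [← Complex.exp_add]
  congr 1
  push_cast
  ring

theorem ee_sum {ι : Type*} (s : Finset ι) (f : ι → ℝ) : ee (∑ i ∈ s, f i) = ∏ i ∈ s, ee (f i) := by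
  unfold ee
  rw [← Complex.exp_sum]
  congr 1
  push_cast
  rw [Finset.mul_sum, Finset.sum_mul]

theorem ee_cont : Continuous ee := by
  unfold ee
  fun_prop

/-- Fourier inversion -/
theorem inv_F (v : ℝ) : ((bump v : ℝ) : ℂ) = ∫ ξ, F ξ * ee (ξ * v) := by
  have h1 : 𝓕⁻ (𝓕 (bs : ℝ → ℂ)) v = bs v := by
    rw [bs.continuous.fourierInv_fourier_eq bs.integrable (𝓕 bs : 𝓢(ℝ, ℂ)).integrable]
  rw [Real.fourierInv_eq'] at h1
  rw [bs_apply] at h1
  rw [← h1]
  congr 1
  funext ξ
  rw [smul_eq_mul, mul_comm]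
  congr 1
  unfold ee
  congr 1
  simp
  ring

end PE

open PE

theorem inv : S_INV := by
  refine ⟨fun η hη => ⟨?_, ?_⟩, ?_, fun η u hη => ?_⟩
  · unfold g
    exact continuous_const.mul (F_cont.comp (continuous_const.mul continuous_id))
  · unfold g
    exact (F_int.comp_mul_left' hη.ne').const_mul _
  · obtain ⟨B, hB⟩ : ∃ B, B = SchwartzMap.seminorm ℝ 0 0 (𝓕 bs : 𝓢(ℝ, ℂ)) := ⟨_, rfl⟩
    obtain ⟨I, hI⟩ : ∃ I, I = ∫ τ, ‖F τ‖ ^ 2 := ⟨_, rfl⟩
    have hB0 : 0 ≤ B := (norm_nonneg _).trans (hB ▸ F_bd 0)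
    have hI0 : 0 ≤ I := by rw [hI]; exact integral_nonneg fun _ => by positivity
    refine ⟨B + I + 1, by positivity, fun η hη => ⟨fun τ => ?_, ?_, ?_⟩⟩
    · unfold g
      rw [norm_mul, Complex.norm_real, Real.norm_of_nonneg hη.le, mul_comm]
      have := F_bd (η * τ)
      rw [← hB] at this
      exact mul_le_mul_of_nonneg_right (by linarith) hη.le
    · have h := (F_sq.comp_mul_left' hη.ne').const_mul (η ^ 2)
      refine h.congr (Filter.Eventually.of_forall fun τ => ?_)
      unfold g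
      simp only
      rw [norm_mul, Complex.norm_real, Real.norm_of_nonneg hη.le]
      ring
    · have e : (fun τ => ‖g η τ‖ ^ 2) = fun τ => (fun ξ => η ^ 2 * ‖F ξ‖ ^ 2) (η * τ) := by
        funext τ
        unfold g
        simp only
        rw [norm_mul, Complex.norm_real, Real.norm_of_nonneg hη.le]
        ring
      rw [e, Measure.integral_comp_mul_left (fun ξ => η ^ 2 * ‖F ξ‖ ^ 2) η,
        integral_const_mul, ← hI, smul_eq_mul, abs_of_pos (inv_pos.2 hη)]
      have h2 : η⁻¹ * (η ^ 2 * I) = I * η := by field_simp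
      rw [h2]
      apply mul_le_mul_of_nonneg_right _ hη.le
      nlinarith
  · rw [inv_F (u / η)]
    have e : (fun τ => g η τ * ee (τ * u)) =
        fun τ => (fun ξ => (η : ℂ) * (F ξ * ee (ξ * (u / η)))) (η * τ) := by
      funext τ
      unfold g
      simp only
      rw [mul_assoc]
      congr 3
      field_simp
    rw [e, Measure.integral_comp_mul_left (fun ξ => (η : ℂ) * (F ξ * ee (ξ * (u / η)))) η,
      integral_const_mul, abs_of_pos (inv_pos.2 hη), Complex.real_smul, ← mul_assoc]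
    have : ((η⁻¹ : ℝ) : ℂ) * (η : ℂ) = 1 := by
      rw [← Complex.ofReal_mul, inv_mul_cancel₀ hη.ne', Complex.ofReal_one]
    rw [this, one_mul]

theorem rep {k s : ℕ} : S_REP k s := by
  obtain ⟨hg, -, hinv⟩ := inv
  refine ⟨fun R η t θ hη => ?_, fun R η t hη => ?_⟩
  · have hint : ∀ c : ℝ, Integrable fun τ => g η τ * ee (τ * c) := by
      intro c
      refine (hg η hη).2.mul_bdd (c := 1) ?_ ?_
      · exact (ee_cont.comp (continuous_id.mul continuous_const)).aestronglyMeasurable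
      · filter_upwards with τ
        rw [norm_ee]
    have e : ∀ τ : ℝ, g η τ * ee (-(τ * t)) * ∏ i, S k R τ (θ i) =
        ∑ x ∈ Fintype.piFinset (fun _ : Fin s => Finset.Ico R (4 * R)),
          g η τ * ee (τ * (∑ i, ((x i : ℝ) + θ i) ^ k - t)) := by
      intro τ
      unfold S
      rw [Finset.prod_univ_sum, Finset.mul_sum]
      refine Finset.sum_congr rfl fun x _ => ?_
      rw [← ee_sum, mul_assoc, ← ee_add]
      congr 2
      rw [← Finset.mul_sum]
      ring
    simp_rw [e]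
    rw [integral_finsetSum _ fun x _ => hint _]
    unfold cnt
    push_cast
    refine Finset.sum_congr rfl fun x _ => ?_
    rw [← hinv η _ hη]
  · -- the box
    obtain ⟨ν, hν⟩ : ∃ ν : Measure ℝ, ν = volume.restrict (Set.Icc (R : ℝ) (4 * (R : ℝ))) :=
      ⟨_, rfl⟩
    have hνf : IsFiniteMeasure ν := by rw [hν]; infer_instance
    have hbox : (volume.restrict (Set.Icc (fun _ : Fin s => (R : ℝ)) (fun _ => 4 * (R : ℝ)))) =
        Measure.pi (fun _ : Fin s => ν) := by
      rw [hν, ← Set.pi_univ_Icc]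
      exact Measure.restrict_pi_pi (fun _ : Fin s => (volume : Measure ℝ)) _
    unfold mu
    rw [hbox]
    have hJ : ∀ τ : ℝ, J k R τ ^ s = ∫ y : Fin s → ℝ, ∏ i, ee (τ * y i ^ k)
        ∂(Measure.pi (fun _ : Fin s => ν)) := by
      intro τ
      rw [integral_fintype_prod_eq_pow (fun y : ℝ => ee (τ * y ^ k)), Fintype.card_fin]
      congr 1
      unfold J
      rw [intervalIntegral.integral_of_le (by
        have : (0 : ℝ) ≤ R := by positivity
        linarith), hν, integral_Icc_eq_integral_Ioc]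
    rw [← integral_complex_ofReal]
    simp_rw [hinv η _ hη]
    rw [integral_integral_swap]
    · congr 1
      funext τ
      rw [hJ, ← integral_const_mul]
      congr 1
      funext y
      rw [← ee_sum, mul_assoc, ← ee_add]
      congr 2
      rw [← Finset.mul_sum]
      ring
    · have h1 : Integrable (fun p : (Fin s → ℝ) × ℝ => g η p.2)
          ((Measure.pi (fun _ : Fin s => ν)).prod volume) := (hg η hη).2.comp_snd _
      refine h1.mul_bdd (c := 1) ?_ ?_
      · apply Continuous.aestronglyMeasurable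
        apply ee_cont.comp
        fun_prop
      · filter_upwards with p
        rw [norm_ee]

end Pool.Agent.W5h6.SW
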