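import Pool.Agent.W5h6.SW.Defs

/-! (B): the integral `J`, the difference `S - J` and the trivial bounds. -/

set_option autoImplicit false

open MeasureTheory
open scoped Real

namespace Pool.Agent.W5h6.SW

lemma pb_norm_ee (x : ℝ) : ‖ee x‖ = 1 := by
  have h : ee x = Complex.exp ((2 * π * x : ℝ) * Complex.I) := by
    rw [ee]
    push_cast
    rfl
  rw [h, Complex.norm_exp_ofReal_mul_I]

lemma pb_hasDerivAt_ee {f : ℝ → ℝ} {f' y : ℝ} (hf : HasDerivAt f f' y) :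
    HasDerivAt (fun y => ee (f y)) (ee (f y) * (2 * π * f' * Complex.I)) y := by
  have h1 : HasDerivAt (fun y : ℝ => ((f y : ℝ) : ℂ)) ((f' : ℝ) : ℂ) y := hf.ofReal_comp
  have h2 := ((h1.const_mul (2 * (π : ℂ))).mul_const Complex.I).cexp
  exact h2

lemma pb_continuous_ee : Continuous ee := by
  unfold ee
  fun_prop

lemma pb_ee_sub (a b : ℝ) : ‖ee a - ee b‖ ≤ 2 * π * |a - b| := by
  have h := Convex.norm_image_sub_le_of_norm_hasDerivWithin_le (f := ee)
    (f' := fun y => ee y * (2 * π * (1 : ℝ) * Complex.I)) (s := Set.univ) (C := 2 * π)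
    (fun y _ => (pb_hasDerivAt_ee (hasDerivAt_id y)).hasDerivWithinAt) (fun y _ => by
      rw [norm_mul, pb_norm_ee, one_mul]
      simp [abs_of_pos Real.pi_pos]) convex_univ (Set.mem_univ b) (Set.mem_univ a)
  simpa [Real.norm_eq_abs] using h

/-- (B1) -/
theorem j_le {k : ℕ} (hk : 2 ≤ k) : S_J k := by
  obtain ⟨n, rfl⟩ : ∃ n, k = n + 1 := ⟨k - 1, by omega⟩
  have hn : 1 ≤ n := by omega
  refine ⟨5, by norm_num, fun R τ hR hτ => ?_⟩
  have hR0 : (0 : ℝ) < R := by exact_mod_cast hR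
  rw [Nat.add_sub_cancel]
  set c : ℂ := (2 * π * (τ * (n + 1)) * Complex.I)⁻¹ with hc
  have hc0 : (2 * (π : ℂ) * (τ * (n + 1)) * Complex.I) ≠ 0 := by
    have h1 : (π : ℂ) ≠ 0 := by exact_mod_cast Real.pi_ne_zero
    have h2 : (τ : ℂ) ≠ 0 := by exact_mod_cast hτ
    have h3 : ((n : ℂ) + 1) ≠ 0 := by exact_mod_cast Nat.succ_ne_zero n
    simp [h1, h2, h3]
  have hcn : ‖c‖ * (n + 1) ≤ 1 / |τ| := by
    have h1 : ‖c‖ = (2 * π * (|τ| * (n + 1)))⁻¹ := by
      rw [hc, norm_inv]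
      congr 1
      simp only [norm_mul, Complex.norm_I, mul_one, Complex.norm_real, Real.norm_eq_abs,
        abs_of_pos Real.pi_pos, Complex.norm_ofNat]
      congr 2
      have : ((n : ℂ) + 1) = ((n + 1 : ℝ) : ℂ) := by push_cast; rfl
      rw [this, Complex.norm_real, Real.norm_of_nonneg (by positivity)]
    have hτ0 : 0 < |τ| := abs_pos.2 hτ
    rw [h1]
    have h2 : (2 * π * (|τ| * ((n : ℝ) + 1)))⁻¹ * (n + 1) = (2 * π)⁻¹ * (1 / |τ|) := by
      field_simp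
    rw [h2]
    have h3 : (2 * π)⁻¹ ≤ 1 := by
      apply inv_le_one_of_one_le₀
      linarith [Real.pi_gt_three]
    have h4 : 0 ≤ 1 / |τ| := by positivity
    nlinarith
  have hder : ∀ y ∈ Set.uIcc (R : ℝ) (4 * R), HasDerivAt
      (fun y : ℝ => ee (τ * y ^ (n + 1)) * (c * ((y : ℂ) ^ n)⁻¹))
      (ee (τ * y ^ (n + 1)) + ee (τ * y ^ (n + 1)) * (c * (-(n * (y : ℂ) ^ (n - 1)) / ((y : ℂ) ^ n) ^ 2)))
      y := by
    intro y hy
    rw [Set.uIcc_of_le (by linarith)] at hy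
    have hy0 : 0 < y := lt_of_lt_of_le hR0 hy.1
    have hyc : (y : ℂ) ≠ 0 := by exact_mod_cast hy0.ne'
    have h1 : HasDerivAt (fun y : ℝ => τ * y ^ (n + 1)) (τ * ((n + 1 : ℕ) * y ^ n)) y := by
      have := (hasDerivAt_pow (n + 1) y).const_mul τ
      simpa using this
    have h2 := pb_hasDerivAt_ee h1
    have h3 : HasDerivAt (fun y : ℝ => ((y : ℂ) ^ n)) (n * (y : ℂ) ^ (n - 1)) y := by
      have h := (hasDerivAt_pow n (y : ℂ)).comp_ofReal
      simpa using h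
    have h4 : HasDerivAt (fun y : ℝ => c * ((y : ℂ) ^ n)⁻¹)
        (c * (-(n * (y : ℂ) ^ (n - 1)) / ((y : ℂ) ^ n) ^ 2)) y :=
      (h3.inv (pow_ne_zero n hyc)).const_mul c
    have h5 := h2.mul h4
    refine h5.congr_deriv ?_
    congr 1
    have h6 : (2 * π * ((τ * ((n + 1 : ℕ) * y ^ n) : ℝ) : ℂ) * Complex.I) =
        (2 * π * (τ * (n + 1)) * Complex.I) * (y : ℂ) ^ n := by
      push_cast
      ring
    rw [h6]
    have h7 : (2 * (π : ℂ) * (τ * (n + 1)) * Complex.I) * c = 1 := by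
      rw [hc]
      exact mul_inv_cancel₀ hc0
    have h8 : (y : ℂ) ^ n * ((y : ℂ) ^ n)⁻¹ = 1 := mul_inv_cancel₀ (pow_ne_zero n hyc)
    calc ee (τ * y ^ (n + 1)) * ((2 * π * (τ * (n + 1)) * Complex.I) * (y : ℂ) ^ n) *
          (c * ((y : ℂ) ^ n)⁻¹) = ee (τ * y ^ (n + 1)) * (((2 * π * (τ * (n + 1)) * Complex.I) * c) *
            ((y : ℂ) ^ n * ((y : ℂ) ^ n)⁻¹)) := by ring
      _ = _ := by rw [h7, h8, mul_one, mul_one]
  clear_value c
  have hv : ∀ y : ℝ, (R : ℝ) ≤ y → ‖c * ((y : ℂ) ^ n)⁻¹‖ ≤ ‖c‖ / (R : ℝ) ^ n := by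
    intro y hy
    rw [norm_mul, norm_inv, norm_pow, Complex.norm_real, Real.norm_of_nonneg (by linarith),
      div_eq_mul_inv]
    gcongr
  have hw : ∀ y : ℝ, (R : ℝ) ≤ y →
      ‖c * (-(n * (y : ℂ) ^ (n - 1)) / ((y : ℂ) ^ n) ^ 2)‖ ≤ ‖c‖ * (n / (R : ℝ) ^ (n + 1)) := by
    intro y hy
    have hy0 : 0 < y := by linarith
    rw [norm_mul, norm_div, norm_neg, norm_mul, norm_pow, norm_pow, norm_pow, Complex.norm_real,
      Real.norm_of_nonneg hy0.le, Complex.norm_natCast]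
    have h1 : (n : ℝ) * y ^ (n - 1) / (y ^ n) ^ 2 = n / y ^ (n + 1) := by
      obtain ⟨j, rfl⟩ : ∃ j, n = j + 1 := ⟨n - 1, by omega⟩
      rw [Nat.add_sub_cancel]
      rw [div_eq_div_iff (by positivity) (by positivity)]
      ring
    rw [h1]
    gcongr
  have hcont : ContinuousOn (fun y : ℝ =>
      ee (τ * y ^ (n + 1)) * (c * (-(n * (y : ℂ) ^ (n - 1)) / ((y : ℂ) ^ n) ^ 2)))
      (Set.uIcc (R : ℝ) (4 * R)) := by
    refine ContinuousOn.mul (pb_continuous_ee.comp (by fun_prop)).continuousOn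
      (ContinuousOn.mul continuousOn_const (ContinuousOn.div (by fun_prop) (by fun_prop) ?_))
    intro y hy
    rw [Set.uIcc_of_le (by linarith)] at hy
    have hy0 : 0 < y := lt_of_lt_of_le hR0 hy.1
    have hyc : (y : ℂ) ≠ 0 := by exact_mod_cast hy0.ne'
    positivity
  have hc1 : Continuous fun y : ℝ => ee (τ * y ^ (n + 1)) := pb_continuous_ee.comp (by fun_prop)
  have h1 := intervalIntegral.integral_eq_sub_of_hasDerivAt hder
    ((hc1.continuousOn.add hcont).intervalIntegrable)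
  rw [intervalIntegral.integral_add (hc1.intervalIntegrable _ _) hcont.intervalIntegrable] at h1
  have h2 : ‖∫ y in (R : ℝ)..(4 * R), ee (τ * y ^ (n + 1)) *
      (c * (-(n * (y : ℂ) ^ (n - 1)) / ((y : ℂ) ^ n) ^ 2))‖ ≤
      ‖c‖ * (n / (R : ℝ) ^ (n + 1)) * |4 * (R : ℝ) - R| := by
    apply intervalIntegral.norm_integral_le_of_norm_le_const
    intro y hy
    rw [Set.uIoc_of_le (by linarith)] at hy
    rw [norm_mul, pb_norm_ee, one_mul]
    exact hw y hy.1.le
  have h3 : ‖J (n + 1) R τ‖ ≤ ‖c‖ / (R : ℝ) ^ n + ‖c‖ / (R : ℝ) ^ n +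
      ‖c‖ * (n / (R : ℝ) ^ (n + 1)) * |4 * (R : ℝ) - R| := by
    rw [J, eq_sub_of_add_eq h1]
    refine (norm_sub_le _ _).trans (add_le_add ((norm_sub_le _ _).trans (add_le_add ?_ ?_)) h2)
    · rw [norm_mul, pb_norm_ee, one_mul]
      exact hv _ (by linarith)
    · rw [norm_mul, pb_norm_ee, one_mul]
      exact hv _ le_rfl
  refine h3.trans ?_
  have h4 : |4 * (R : ℝ) - R| = 3 * R := by
    rw [abs_of_nonneg (by linarith)]
    ring
  rw [h4]
  have h5 : ‖c‖ / (R : ℝ) ^ n + ‖c‖ / (R : ℝ) ^ n + ‖c‖ * (n / (R : ℝ) ^ (n + 1)) * (3 * R) =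
      (2 * ‖c‖ + 3 * (‖c‖ * n)) / (R : ℝ) ^ n := by
    rw [pow_succ]
    field_simp
    ring
  rw [h5, show (5 : ℝ) / (|τ| * (R : ℝ) ^ n) = (5 * (1 / |τ|)) / (R : ℝ) ^ n by field_simp]
  gcongr
  have := norm_nonneg c
  nlinarith

lemma pb_j_eq (k R : ℕ) (τ : ℝ) :
    J k R τ = ∑ x ∈ Finset.Ico R (4 * R), ∫ y in (x : ℝ)..((x + 1 : ℕ) : ℝ), ee (τ * y ^ k) := by
  have hc1 : Continuous fun y : ℝ => ee (τ * y ^ k) := pb_continuous_ee.comp (by fun_prop)
  rw [intervalIntegral.sum_integral_adjacent_intervals_Ico (a := fun x : ℕ => (x : ℝ))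
    (show R ≤ 4 * R by omega) (fun j _ => hc1.intervalIntegrable _ _), J]
  push_cast
  rfl

/-- (B2) -/
theorem sj {k : ℕ} (hk : 2 ≤ k) : S_SJ k := by
  refine ⟨6 * π * k * 4 ^ (k - 1), by positivity, fun R τ θ hR hθ => ?_⟩
  have hR0 : (0 : ℝ) < R := by exact_mod_cast hR
  have hc1 : Continuous fun y : ℝ => ee (τ * y ^ k) := pb_continuous_ee.comp (by fun_prop)
  have hterm : ∀ x ∈ Finset.Ico R (4 * R),
      ‖ee (τ * ((x : ℝ) + θ) ^ k) - ∫ y in (x : ℝ)..((x + 1 : ℕ) : ℝ), ee (τ * y ^ k)‖ ≤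
        2 * π * (|τ| * (k * (4 * (R : ℝ)) ^ (k - 1))) := by
    intro x hx
    rw [Finset.mem_Ico] at hx
    have hx1 : ((x + 1 : ℕ) : ℝ) ≤ 4 * R := by exact_mod_cast hx.2
    have hxx : ((x + 1 : ℕ) : ℝ) = (x : ℝ) + 1 := by push_cast; rfl
    have hx0 : (0 : ℝ) ≤ x := by positivity
    have e1 : ee (τ * ((x : ℝ) + θ) ^ k) =
        ∫ y in (x : ℝ)..((x + 1 : ℕ) : ℝ), ee (τ * ((x : ℝ) + θ) ^ k) := by
      rw [intervalIntegral.integral_const, hxx]
      simp
    rw [e1, ← intervalIntegral.integral_sub (intervalIntegrable_const) (hc1.intervalIntegrable _ _)]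
    have h1 : ‖∫ y in (x : ℝ)..((x + 1 : ℕ) : ℝ), (ee (τ * ((x : ℝ) + θ) ^ k) - ee (τ * y ^ k))‖ ≤
        2 * π * (|τ| * (k * (4 * (R : ℝ)) ^ (k - 1))) * |((x + 1 : ℕ) : ℝ) - x| := by
      apply intervalIntegral.norm_integral_le_of_norm_le_const
      intro y hy
      rw [Set.uIoc_of_le (by rw [hxx]; linarith)] at hy
      refine (pb_ee_sub _ _).trans ?_
      have h2 : |((x : ℝ) + θ) ^ k - y ^ k| ≤ k * (4 * (R : ℝ)) ^ (k - 1) := by
        have h3 := abs_pow_sub_pow_le ((x : ℝ) + θ) y k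
        have h4 : |(x : ℝ) + θ - y| ≤ 1 := by
          rw [abs_le]
          constructor <;> linarith [hy.1, hy.2, hθ.1, hθ.2]
        have h5 : max |(x : ℝ) + θ| |y| ≤ 4 * R := by
          apply max_le
          · rw [abs_of_nonneg (by linarith [hθ.1])]
            linarith [hθ.2]
          · rw [abs_of_nonneg (by linarith [hy.1])]
            linarith [hy.2]
        calc |((x : ℝ) + θ) ^ k - y ^ k| ≤
            |(x : ℝ) + θ - y| * k * (max |(x : ℝ) + θ| |y|) ^ (k - 1) := h3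
          _ ≤ 1 * k * (4 * (R : ℝ)) ^ (k - 1) := by gcongr
          _ = _ := by ring
      rw [← mul_sub, abs_mul]
      gcongr
    have h6 : |((x + 1 : ℕ) : ℝ) - x| = 1 := by
      rw [hxx]
      simp
    rwa [h6, mul_one] at h1
  rw [S, pb_j_eq, ← Finset.sum_sub_distrib]
  refine (norm_sum_le _ _).trans ((Finset.sum_le_sum hterm).trans ?_)
  rw [Finset.sum_const, Nat.card_Ico, nsmul_eq_mul]
  have h7 : ((4 * R - R : ℕ) : ℝ) = 3 * R := by
    rw [show 4 * R - R = 3 * R by omega]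
    push_cast
    rfl
  rw [h7, mul_pow]
  obtain ⟨n, rfl⟩ : ∃ n, k = n + 1 := ⟨k - 1, by omega⟩
  rw [Nat.add_sub_cancel, pow_succ (R : ℝ) n]
  apply le_of_eq
  ring

lemma pb_norm_S_le (k R : ℕ) (τ θ : ℝ) : ‖S k R τ θ‖ ≤ 3 * R := by
  rw [S]
  refine (norm_sum_le _ _).trans ?_
  simp only [pb_norm_ee, Finset.sum_const, Nat.card_Ico, nsmul_eq_mul, mul_one]
  rw [show 4 * R - R = 3 * R by omega]
  push_cast
  exact le_rfl

lemma pb_continuous_S (k R : ℕ) : Continuous fun p : ℝ × ℝ => S k R p.1 p.2 := by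
  unfold S
  exact continuous_finsetSum _ fun x _ => pb_continuous_ee.comp (by fun_prop)

lemma pb_j_eq_S (k R : ℕ) (τ : ℝ) : J k R τ = ∫ θ in (0 : ℝ)..1, S k R τ θ := by
  rw [pb_j_eq]
  unfold S
  rw [intervalIntegral.integral_finsetSum]
  · apply Finset.sum_congr rfl
    intro x _
    have := intervalIntegral.integral_comp_add_left (a := (0 : ℝ)) (b := 1)
      (fun y : ℝ => ee (τ * y ^ k)) (x : ℝ)
    rw [this]
    push_cast
    simp
  · intro x _
    exact (pb_continuous_ee.comp (by fun_prop)).intervalIntegrable _ _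

/-- (B3) -/
theorem triv (k : ℕ) : S_TRIV k := by
  refine ⟨pb_norm_S_le k, fun R τ => ?_, pb_continuous_S k, fun R => ?_, fun R τ => ?_⟩
  · have h : ‖J k R τ‖ ≤ 1 * |4 * (R : ℝ) - R| := by
      rw [J]
      apply intervalIntegral.norm_integral_le_of_norm_le_const
      intro y _
      rw [pb_norm_ee]
    rw [abs_of_nonneg (by have : (0 : ℝ) ≤ R := by positivity
                          linarith)] at h
    linarith
  · unfold J
    apply intervalIntegral.continuous_parametric_intervalIntegral_of_continuous'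
    exact pb_continuous_ee.comp (by fun_prop)
  · have hcS : Continuous fun θ : ℝ => ‖S k R τ θ‖ :=
      ((pb_continuous_S k R).comp (by fun_prop : Continuous fun θ : ℝ => (τ, θ))).norm
    set m := ∫ θ in (0 : ℝ)..1, ‖S k R τ θ‖ with hm
    have h1 : ‖J k R τ‖ ≤ m := by
      rw [pb_j_eq_S]
      exact intervalIntegral.norm_integral_le_integral_norm zero_le_one
    have h2 : 0 ≤ ∫ θ in (0 : ℝ)..1, (‖S k R τ θ‖ - m) ^ 2 :=
      intervalIntegral.integral_nonneg zero_le_one fun θ _ => sq_nonneg _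
    have h3 : ∫ θ in (0 : ℝ)..1, (‖S k R τ θ‖ - m) ^ 2 = A k R τ - m ^ 2 := by
      have e : ∀ θ : ℝ, (‖S k R τ θ‖ - m) ^ 2 = ‖S k R τ θ‖ ^ 2 - 2 * m * ‖S k R τ θ‖ + m ^ 2 := by
        intro θ
        ring
      simp only [e]
      rw [intervalIntegral.integral_add (by apply Continuous.intervalIntegrable; fun_prop)
        intervalIntegrable_const, intervalIntegral.integral_sub
        (by apply Continuous.intervalIntegrable; fun_prop)
        (by apply Continuous.intervalIntegrable; fun_prop), intervalIntegral.integral_const_mul,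
        intervalIntegral.integral_const, ← hm, A]
      simp
      ring
    have h4 : ‖J k R τ‖ ^ 2 ≤ m ^ 2 := by
      have := norm_nonneg (J k R τ)
      gcongr
    linarith

end Pool.Agent.W5h6.SW
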