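import Pool.Agent.W5h6.SW.Defs

/-! (A) The mean square of the exponential sum over the shifts: unfolding and the first
derivative test. -/

set_option autoImplicit false

open MeasureTheory intervalIntegral
open scoped Real

namespace Pool.Agent.W5h6.SW

theorem A.ee_zero : ee 0 = 1 := by simp [ee]

theorem A.ee_add (a b : ℝ) : ee (a + b) = ee a * ee b := by
  unfold ee
  rw [← Complex.exp_add]
  congr 1
  push_cast
  ring

theorem A.norm_ee (a : ℝ) : ‖ee a‖ = 1 := by
  unfold ee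
  have : (2 * (π : ℂ) * (a : ℂ) * Complex.I) = ((2 * π * a : ℝ) : ℂ) * Complex.I := by
    push_cast; ring
  rw [this, Complex.norm_exp_ofReal_mul_I]

theorem A.conj_ee (a : ℝ) : (starRingEnd ℂ) (ee a) = ee (-a) := by
  unfold ee
  rw [← Complex.exp_conj]
  congr 1
  simp only [map_mul, Complex.conj_ofReal, Complex.conj_I, map_ofNat]
  push_cast
  ring

theorem A.continuous_ee : Continuous ee := by
  unfold ee
  fun_prop

theorem A.hasDerivAt_ee {u : ℝ → ℝ} {u' x : ℝ} (h : HasDerivAt u u' x) :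
    HasDerivAt (fun y => ee (u y)) (2 * π * Complex.I * u' * ee (u x)) x := by
  unfold ee
  have h1 : HasDerivAt (fun y => ((u y : ℝ) : ℂ)) (u' : ℂ) x := h.ofReal_comp
  have h2 : HasDerivAt (fun y => (2 * (π : ℂ) * (u y : ℂ) * Complex.I))
      (2 * (π : ℂ) * (u' : ℂ) * Complex.I) x := (h1.const_mul _).mul_const _
  have h3 := h2.cexp
  convert h3 using 1
  ring

/-- First derivative test. -/
theorem A.first_deriv {a b τ : ℝ} (hab : a ≤ b) (hτ : τ ≠ 0) (p p1 p2 : ℝ → ℝ)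
    (h1 : ∀ y ∈ Set.Icc a b, HasDerivAt p (p1 y) y)
    (h2 : ∀ y ∈ Set.Icc a b, HasDerivAt p1 (p2 y) y)
    (hpos : ∀ y ∈ Set.Icc a b, 0 < p1 y) (hnn : ∀ y ∈ Set.Icc a b, 0 ≤ p2 y)
    (hc1 : ContinuousOn p1 (Set.Icc a b)) (hc2 : ContinuousOn p2 (Set.Icc a b)) :
    ‖∫ y in a..b, ee (τ * p y)‖ ≤ 1 / (|τ| * p1 a) := by
  have hcp : ContinuousOn p (Set.Icc a b) := fun y hy => (h1 y hy).continuousAt.continuousWithinAt
  have hI : Set.uIcc a b = Set.Icc a b := Set.uIcc_of_le hab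
  -- `w = 1 / p1`
  have hw : ∀ y ∈ Set.Icc a b, HasDerivAt (fun y => (p1 y)⁻¹) (-(p2 y) / (p1 y) ^ 2) y := by
    intro y hy
    exact (h2 y hy).fun_inv (hpos y hy).ne'
  have hwc : ContinuousOn (fun y => -(p2 y) / (p1 y) ^ 2) (Set.Icc a b) :=
    hc2.neg.div (hc1.pow 2) (fun y hy => pow_ne_zero _ (hpos y hy).ne')
  have hπ : (2 * (π : ℂ) * Complex.I * τ) ≠ 0 := by
    simp [Real.pi_ne_zero, hτ]
  -- integration by parts
  have key : ∫ y in a..b, ((p1 y)⁻¹ : ℂ) * (2 * π * Complex.I * (τ * p1 y : ℝ) * ee (τ * p y)) =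
      ((p1 b)⁻¹ : ℂ) * ee (τ * p b) - ((p1 a)⁻¹ : ℂ) * ee (τ * p a) -
        ∫ y in a..b, (((-(p2 y) / (p1 y) ^ 2 : ℝ)) : ℂ) * ee (τ * p y) := by
    have hu : ∀ y ∈ Set.uIcc a b, HasDerivAt (fun y => ((p1 y)⁻¹ : ℂ))
        (((-(p2 y) / (p1 y) ^ 2 : ℝ)) : ℂ) y := by
      intro y hy
      have := (hw y (hI ▸ hy)).ofReal_comp
      convert this using 2
      push_cast; rfl
    have hv : ∀ y ∈ Set.uIcc a b, HasDerivAt (fun y => ee (τ * p y))
        (2 * π * Complex.I * (τ * p1 y : ℝ) * ee (τ * p y)) y := by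
      intro y hy
      exact A.hasDerivAt_ee ((h1 y (hI ▸ hy)).const_mul τ)
    rw [integral_mul_deriv_eq_deriv_mul hu hv]
    · apply ContinuousOn.intervalIntegrable
      rw [hI]
      exact Complex.continuous_ofReal.comp_continuousOn hwc
    · apply ContinuousOn.intervalIntegrable
      rw [hI]
      apply ContinuousOn.mul
      · apply ContinuousOn.mul continuousOn_const
        exact Complex.continuous_ofReal.comp_continuousOn (continuousOn_const.mul hc1)
      · exact A.continuous_ee.comp_continuousOn (continuousOn_const.mul hcp)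
  have heq : ∫ y in a..b, ((p1 y)⁻¹ : ℂ) * (2 * π * Complex.I * (τ * p1 y : ℝ) * ee (τ * p y)) =
      (2 * (π : ℂ) * Complex.I * τ) * ∫ y in a..b, ee (τ * p y) := by
    rw [← intervalIntegral.integral_const_mul]
    apply intervalIntegral.integral_congr
    intro y hy
    rw [hI] at hy
    have : (p1 y : ℂ) ≠ 0 := by exact_mod_cast (hpos y hy).ne'
    simp only
    push_cast
    field_simp
  have hbd : ‖∫ y in a..b, (((-(p2 y) / (p1 y) ^ 2 : ℝ)) : ℂ) * ee (τ * p y)‖ ≤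
      (p1 a)⁻¹ - (p1 b)⁻¹ := by
    have e1 : ∫ y in a..b, (-(p2 y) / (p1 y) ^ 2) = (p1 b)⁻¹ - (p1 a)⁻¹ := by
      apply integral_eq_sub_of_hasDerivAt
      · intro y hy; exact hw y (hI ▸ hy)
      · apply ContinuousOn.intervalIntegrable
        rw [hI]; exact hwc
    have e2 : (p1 a)⁻¹ - (p1 b)⁻¹ = ∫ y in a..b, ((p2 y) / (p1 y) ^ 2) := by
      have : (p1 a)⁻¹ - (p1 b)⁻¹ = -∫ y in a..b, (-(p2 y) / (p1 y) ^ 2) := by rw [e1]; ring
      rw [this, ← intervalIntegral.integral_neg]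
      apply intervalIntegral.integral_congr
      intro y _
      simp only
      ring
    rw [e2]
    apply intervalIntegral.norm_integral_le_of_norm_le hab
    · refine Filter.Eventually.of_forall fun y hy => ?_
      have hy' : y ∈ Set.Icc a b := ⟨hy.1.le, hy.2⟩
      rw [norm_mul, A.norm_ee, mul_one, Complex.norm_real, Real.norm_eq_abs, abs_div, abs_neg,
        abs_of_nonneg (hnn y hy'), abs_of_nonneg (sq_nonneg _)]
    · apply ContinuousOn.intervalIntegrable
      rw [hI]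
      exact hc2.div (hc1.pow 2) (fun y hy => pow_ne_zero _ (hpos y hy).ne')
  have hpa : 0 < p1 a := hpos a ⟨le_rfl, hab⟩
  have hpb : 0 < p1 b := hpos b ⟨hab, le_rfl⟩
  have hfin : ‖(2 * (π : ℂ) * Complex.I * τ) * ∫ y in a..b, ee (τ * p y)‖ ≤ 2 * (p1 a)⁻¹ := by
    rw [← heq, key]
    refine (norm_sub_le _ _).trans ?_
    have : ‖((p1 b)⁻¹ : ℂ) * ee (τ * p b) - ((p1 a)⁻¹ : ℂ) * ee (τ * p a)‖ ≤
        (p1 b)⁻¹ + (p1 a)⁻¹ := by
      refine (norm_sub_le _ _).trans (le_of_eq ?_)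
      rw [norm_mul, norm_mul, A.norm_ee, A.norm_ee, norm_inv, norm_inv, Complex.norm_real,
        Complex.norm_real, Real.norm_eq_abs, Real.norm_eq_abs, abs_of_pos hpa, abs_of_pos hpb]
      ring
    linarith
  rw [norm_mul] at hfin
  have hn : ‖(2 * (π : ℂ) * Complex.I * τ)‖ = 2 * π * |τ| := by
    simp [abs_of_pos Real.pi_pos]
  rw [hn] at hfin
  have hτ' : 0 < |τ| := abs_pos.mpr hτ
  rw [le_div_iff₀ (mul_pos hτ' hpa)]
  have hπ1 : 1 ≤ π := by linarith [Real.pi_gt_three]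
  set I := ‖∫ y in a..b, ee (τ * p y)‖ with hIdef
  have hI0 : 0 ≤ I := norm_nonneg _
  have h3 : 2 * |τ| * I ≤ 2 * (p1 a)⁻¹ := by
    refine le_trans ?_ hfin
    have : 2 * |τ| * I * 1 ≤ 2 * |τ| * I * π := mul_le_mul_of_nonneg_left hπ1 (by positivity)
    linarith
  calc I * (|τ| * p1 a) = (2 * |τ| * I) * (p1 a / 2) := by ring
    _ ≤ (2 * (p1 a)⁻¹) * (p1 a / 2) := mul_le_mul_of_nonneg_right h3 (by positivity)
    _ = 1 := by field_simp

/-- The integral over the differences. -/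
theorem A.diff_bound {k : ℕ} (hk : 2 ≤ k) {R h : ℕ} (hR : 1 ≤ R) (hh : 1 ≤ h) (hh3 : h ≤ 3 * R)
    {τ : ℝ} (hτ : τ ≠ 0) :
    ‖∫ y in (R : ℝ)..((4 * R - h : ℕ) : ℝ), ee (τ * ((y + h) ^ k - y ^ k))‖ ≤
      1 / (|τ| * (h * (R : ℝ) ^ (k - 2))) := by
  obtain ⟨m, rfl⟩ : ∃ m, k = m + 2 := ⟨k - 2, by omega⟩
  have hRpos : (0 : ℝ) < R := by exact_mod_cast hR
  have hhpos : (0 : ℝ) < h := by exact_mod_cast hh
  have hab : (R : ℝ) ≤ ((4 * R - h : ℕ) : ℝ) := by
    have : R ≤ 4 * R - h := by omega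
    exact_mod_cast this
  set p : ℝ → ℝ := fun y => (y + h) ^ (m + 2) - y ^ (m + 2) with hp
  set p1 : ℝ → ℝ := fun y => (m + 2) * ((y + h) ^ (m + 1) - y ^ (m + 1)) with hp1
  set p2 : ℝ → ℝ := fun y => (m + 2) * (m + 1) * ((y + h) ^ m - y ^ m) with hp2
  have H := A.first_deriv (a := (R : ℝ)) (b := ((4 * R - h : ℕ) : ℝ)) hab hτ p p1 p2 ?_ ?_ ?_ ?_
    (by fun_prop) (by fun_prop)
  · refine H.trans ?_
    have hτ' : 0 < |τ| := abs_pos.mpr hτ
    have hlow : (h : ℝ) * (R : ℝ) ^ m ≤ p1 R := by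
      have h0 : (R : ℝ) ^ m * (R + h) ≤ (R + h) ^ m * (R + h) :=
        mul_le_mul_of_nonneg_right (pow_le_pow_left₀ hRpos.le (by linarith) m) (by positivity)
      have h1 : (h : ℝ) * (R : ℝ) ^ m ≤ ((R : ℝ) + h) ^ (m + 1) - (R : ℝ) ^ (m + 1) := by
        rw [pow_succ, pow_succ]; nlinarith
      have h2 : (0 : ℝ) ≤ ((R : ℝ) + h) ^ (m + 1) - (R : ℝ) ^ (m + 1) :=
        le_trans (by positivity) h1
      have h3 : (1 : ℝ) ≤ (m : ℝ) + 2 := by
        have : (0 : ℝ) ≤ m := Nat.cast_nonneg m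
        linarith
      calc (h : ℝ) * (R : ℝ) ^ m ≤ 1 * (((R : ℝ) + h) ^ (m + 1) - (R : ℝ) ^ (m + 1)) := by linarith
        _ ≤ ((m : ℝ) + 2) * (((R : ℝ) + h) ^ (m + 1) - (R : ℝ) ^ (m + 1)) :=
          mul_le_mul_of_nonneg_right h3 h2
    rw [show m + 2 - 2 = m by omega]
    apply one_div_le_one_div_of_le
    · positivity
    · exact mul_le_mul_of_nonneg_left hlow hτ'.le
  · intro y _
    have h1 : HasDerivAt (fun y : ℝ => (y + h) ^ (m + 2)) ((m + 2 : ℕ) * (y + h) ^ (m + 1) * 1) y :=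
      ((hasDerivAt_id' y).add_const (h : ℝ)).fun_pow (m + 2)
    have h2 : HasDerivAt (fun y : ℝ => y ^ (m + 2)) ((m + 2 : ℕ) * y ^ (m + 1)) y := by
      simpa using hasDerivAt_pow (m + 2) y
    refine (h1.fun_sub h2).congr_deriv ?_
    simp only [hp1]
    push_cast; ring
  · intro y _
    have h1 : HasDerivAt (fun y : ℝ => (y + h) ^ (m + 1)) ((m + 1 : ℕ) * (y + h) ^ m * 1) y :=
      ((hasDerivAt_id' y).add_const (h : ℝ)).fun_pow (m + 1)
    have h2 : HasDerivAt (fun y : ℝ => y ^ (m + 1)) ((m + 1 : ℕ) * y ^ m) y := by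
      simpa using hasDerivAt_pow (m + 1) y
    refine ((h1.fun_sub h2).const_mul ((m : ℝ) + 2)).congr_deriv ?_
    simp only [hp2]
    push_cast; ring
  · intro y hy
    have hy0 : 0 < y := lt_of_lt_of_le hRpos hy.1
    have : y ^ (m + 1) < (y + h) ^ (m + 1) := pow_lt_pow_left₀ (by linarith) hy0.le (by omega)
    simp only [hp1]
    have : 0 < (y + h) ^ (m + 1) - y ^ (m + 1) := by linarith
    positivity
  · intro y hy
    have hy0 : 0 < y := lt_of_lt_of_le hRpos hy.1
    have : y ^ m ≤ (y + h) ^ m := pow_le_pow_left₀ hy0.le (by linarith) m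
    simp only [hp2]
    have : 0 ≤ (y + h) ^ m - y ^ m := by linarith
    positivity

/-- Reordering of a symmetric double sum by differences. -/
theorem A.double_sum (R : ℕ) (hR : 1 ≤ R) (r : ℕ → ℕ → ℝ) (hs : ∀ x y, r x y = r y x) :
    ∑ x ∈ Finset.Ico R (4 * R), ∑ y ∈ Finset.Ico R (4 * R), r x y =
      ∑ x ∈ Finset.Ico R (4 * R), r x x +
        2 * ∑ h ∈ Finset.Ico 1 (3 * R), ∑ x ∈ Finset.Ico R (4 * R - h), r (x + h) x := by
  have h1 : ∀ x ∈ Finset.Ico R (4 * R), ∑ y ∈ Finset.Ico R (4 * R), r x y =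
      ∑ y ∈ Finset.Ico R x, r x y + r x x + ∑ y ∈ Finset.Ico (x + 1) (4 * R), r x y := by
    intro x hx
    rw [Finset.mem_Ico] at hx
    rw [← Finset.sum_Ico_consecutive (fun y => r x y) hx.1 hx.2.le,
      Finset.sum_eq_sum_Ico_succ_bot hx.2]
    ring
  rw [Finset.sum_congr rfl h1, Finset.sum_add_distrib, Finset.sum_add_distrib,
    ← Finset.sum_Ico_Ico_comm']
  have h2 : ∑ x ∈ Finset.Ico R (4 * R), ∑ y ∈ Finset.Ico (x + 1) (4 * R), r x y =
      ∑ x ∈ Finset.Ico R (4 * R), ∑ y ∈ Finset.Ico (x + 1) (4 * R), r y x :=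
    Finset.sum_congr rfl fun x _ => Finset.sum_congr rfl fun y _ => hs x y
  rw [h2]
  have h3 : ∑ x ∈ Finset.Ico R (4 * R), ∑ y ∈ Finset.Ico (x + 1) (4 * R), r y x =
      ∑ h ∈ Finset.Ico 1 (3 * R), ∑ x ∈ Finset.Ico R (4 * R - h), r (x + h) x := by
    have h4 : ∀ x ∈ Finset.Ico R (4 * R), ∑ y ∈ Finset.Ico (x + 1) (4 * R), r y x =
        ∑ h ∈ Finset.Ico 1 (4 * R - x), r (x + h) x := by
      intro x hx
      rw [Finset.mem_Ico] at hx
      rw [Finset.sum_Ico_add (fun y => r y x) 1 (4 * R - x) x]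
      congr 1
      rw [show 1 + x = x + 1 by omega, show 4 * R - x + x = 4 * R by omega]
    rw [Finset.sum_congr rfl h4]
    apply Finset.sum_comm'
    intro x h
    simp only [Finset.mem_Ico]
    omega
  rw [h3]
  ring

theorem a_le {k : ℕ} (hk : 2 ≤ k) : S_A k := by
  refine ⟨10, by norm_num, fun R τ hR hτ => ?_⟩
  have hR1 : 1 ≤ R := by omega
  have hRpos : (0 : ℝ) < R := by exact_mod_cast (by omega : 0 < R)
  have hτ' : 0 < |τ| := abs_pos.mpr hτ
  set r : ℝ → ℕ → ℕ → ℝ := fun θ x y =>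
    (ee (τ * (((x : ℝ) + θ) ^ k - ((y : ℝ) + θ) ^ k))).re with hr
  have hsym : ∀ θ x y, r θ x y = r θ y x := by
    intro θ x y
    simp only [hr]
    have : ee (τ * (((y : ℝ) + θ) ^ k - ((x : ℝ) + θ) ^ k)) =
        (starRingEnd ℂ) (ee (τ * (((x : ℝ) + θ) ^ k - ((y : ℝ) + θ) ^ k))) := by
      rw [A.conj_ee]; congr 1; ring
    rw [this, Complex.conj_re]
  have hdiag : ∀ θ x, r θ x x = 1 := by
    intro θ x
    simp [hr, A.ee_zero]
  have hexp : ∀ θ, ‖S k R τ θ‖ ^ 2 = 3 * R +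
      2 * ∑ h ∈ Finset.Ico 1 (3 * R), ∑ x ∈ Finset.Ico R (4 * R - h), r θ (x + h) x := by
    intro θ
    have h1 : ‖S k R τ θ‖ ^ 2 =
        ∑ x ∈ Finset.Ico R (4 * R), ∑ y ∈ Finset.Ico R (4 * R), r θ x y := by
      have h2 : ((‖S k R τ θ‖ ^ 2 : ℝ) : ℂ) = S k R τ θ * (starRingEnd ℂ) (S k R τ θ) := by
        rw [Complex.mul_conj, Complex.normSq_eq_norm_sq]
      have h3 : ‖S k R τ θ‖ ^ 2 = (S k R τ θ * (starRingEnd ℂ) (S k R τ θ)).re := by
        rw [← h2, Complex.ofReal_re]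
      rw [h3]
      unfold S
      rw [map_sum, Finset.sum_mul_sum, Complex.re_sum]
      refine Finset.sum_congr rfl fun x _ => ?_
      rw [Complex.re_sum]
      refine Finset.sum_congr rfl fun y _ => ?_
      simp only [hr]
      rw [A.conj_ee, ← A.ee_add]
      congr 2
      ring
    rw [h1, A.double_sum R hR1 _ (hsym θ)]
    congr 1
    rw [Finset.sum_congr rfl fun x _ => hdiag θ x]
    simp only [Finset.sum_const, Nat.card_Ico, nsmul_eq_mul, mul_one]
    rw [show 4 * R - R = 3 * R by omega]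
    push_cast; ring
  have hcont : ∀ x y : ℕ, Continuous fun θ => r θ x y := by
    intro x y
    simp only [hr]
    exact Complex.continuous_re.comp (A.continuous_ee.comp (by fun_prop))
  -- the integral
  have hint : A k R τ = 3 * R + 2 * ∑ h ∈ Finset.Ico 1 (3 * R),
      ∑ x ∈ Finset.Ico R (4 * R - h), ∫ θ in (0 : ℝ)..1, r θ (x + h) x := by
    unfold A
    rw [intervalIntegral.integral_congr (fun θ _ => hexp θ)]
    rw [intervalIntegral.integral_add, intervalIntegral.integral_const,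
      intervalIntegral.integral_const_mul, intervalIntegral.integral_finsetSum]
    · simp only [sub_zero, one_smul]
      congr 2
      refine Finset.sum_congr rfl fun h _ => ?_
      rw [intervalIntegral.integral_finsetSum]
      intro x _
      exact (hcont _ _).intervalIntegrable _ _
    · intro h _
      exact (continuous_finsetSum _ fun x _ => hcont _ _).intervalIntegrable _ _
    · exact intervalIntegrable_const
    · exact (continuous_const.mul (continuous_finsetSum _ fun h _ =>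
        continuous_finsetSum _ fun x _ => hcont _ _)).intervalIntegrable _ _
  have hh : ∀ h ∈ Finset.Ico 1 (3 * R),
      ∑ x ∈ Finset.Ico R (4 * R - h), ∫ θ in (0 : ℝ)..1, r θ (x + h) x ≤
        1 / (|τ| * (R : ℝ) ^ (k - 2)) * (1 / h) := by
    intro h hh
    rw [Finset.mem_Ico] at hh
    set G : ℝ → ℂ := fun y => ee (τ * ((y + h) ^ k - y ^ k)) with hG
    have hGc : Continuous G := A.continuous_ee.comp (by fun_prop)
    have e1 : ∀ x ∈ Finset.Ico R (4 * R - h), ∫ θ in (0 : ℝ)..1, r θ (x + h) x =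
        (∫ y in ((x : ℕ) : ℝ)..((x + 1 : ℕ) : ℝ), G y).re := by
      intro x _
      have e2 : ∫ θ in (0 : ℝ)..1, r θ (x + h) x = ∫ θ in (0 : ℝ)..1, (G (θ + x)).re := by
        apply intervalIntegral.integral_congr
        intro θ _
        simp only [hr, hG]
        congr 3
        push_cast
        ring
      rw [e2]
      have e3 : ∫ θ in (0 : ℝ)..1, (G (θ + x)).re = (∫ θ in (0 : ℝ)..1, G (θ + x)).re := by
        have := Complex.reCLM.intervalIntegral_comp_comm (μ := volume) (a := 0) (b := 1)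
          (f := fun θ : ℝ => G (θ + x)) ((hGc.comp (by fun_prop)).intervalIntegrable _ _)
        simpa using this
      rw [e3, intervalIntegral.integral_comp_add_right (fun y => G y)]
      congr 2
      · simp
      · push_cast; ring
    rw [Finset.sum_congr rfl e1, ← Complex.re_sum,
      intervalIntegral.sum_integral_adjacent_intervals_Ico (a := fun n : ℕ => (n : ℝ))
        (by omega) (fun x _ => hGc.intervalIntegrable _ _)]
    refine (Complex.re_le_norm _).trans ?_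
    refine (A.diff_bound hk hR1 hh.1 (by omega) hτ).trans (le_of_eq ?_)
    have : (h : ℝ) ≠ 0 := by
      have : 0 < h := hh.1
      positivity
    field_simp
  have hsum : ∑ h ∈ Finset.Ico 1 (3 * R), (1 / (h : ℝ)) ≤ 5 * Real.log R := by
    have h1 : ∑ h ∈ Finset.Ico 1 (3 * R), (1 / (h : ℝ)) ≤ (harmonic (3 * R) : ℝ) := by
      rw [harmonic_eq_sum_Icc]
      push_cast
      simp only [one_div]
      apply Finset.sum_le_sum_of_subset_of_nonneg
      · intro x hx
        simp only [Finset.mem_Ico, Finset.mem_Icc] at hx ⊢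
        omega
      · intro i _ _
        positivity
    have h2 : (harmonic (3 * R) : ℝ) ≤ 1 + Real.log ((3 * R : ℕ) : ℝ) := harmonic_le_one_add_log _
    have h3 : Real.log ((3 * R : ℕ) : ℝ) = Real.log 3 + Real.log R := by
      push_cast
      rw [Real.log_mul (by norm_num) hRpos.ne']
    have h4 : Real.log 2 ≤ Real.log R := Real.log_le_log (by norm_num) (by exact_mod_cast hR)
    have h5 : Real.log 3 ≤ 2 * Real.log 2 := by
      rw [← Real.log_rpow (by norm_num)]
      exact Real.log_le_log (by norm_num) (by norm_num)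
    have h6 := Real.log_two_gt_d9
    linarith
  have hlog : 0 ≤ Real.log R := Real.log_nonneg (by exact_mod_cast hR1)
  rw [hint]
  have hmain : ∑ h ∈ Finset.Ico 1 (3 * R),
      ∑ x ∈ Finset.Ico R (4 * R - h), ∫ θ in (0 : ℝ)..1, r θ (x + h) x ≤
        1 / (|τ| * (R : ℝ) ^ (k - 2)) * (5 * Real.log R) := by
    refine (Finset.sum_le_sum hh).trans ?_
    rw [← Finset.mul_sum]
    exact mul_le_mul_of_nonneg_left hsum (by positivity)
  have hfin : 1 / (|τ| * (R : ℝ) ^ (k - 2)) * (5 * Real.log R) =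
      5 * (Real.log R / (|τ| * (R : ℝ) ^ (k - 2))) := by ring
  rw [hfin] at hmain
  have hnn : 0 ≤ Real.log R / (|τ| * (R : ℝ) ^ (k - 2)) := by positivity
  linarith

end Pool.Agent.W5h6.SW
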