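import Pool.Agent.W5h6.SW.Defs

/-! (C) the low frequencies. -/

set_option autoImplicit false

open MeasureTheory
open scoped Real

namespace Pool.Agent.W5h6.SW

lemma prod_sub_pow {ι : Type*} [DecidableEq ι] (t : Finset ι) (f : ι → ℂ) (b : ℂ) {a d : ℝ}
    (hb : ‖b‖ ≤ a) (hf : ∀ i ∈ t, ‖f i - b‖ ≤ d) (hd : 0 ≤ d) :
    ‖∏ i ∈ t, f i - b ^ t.card‖ ≤ t.card * d * (a + d) ^ (t.card - 1) := by
  have ha : 0 ≤ a := (norm_nonneg b).trans hb
  induction t using Finset.induction_on with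
  | empty => simp
  | insert j t hj ih =>
    have hft : ∀ i ∈ t, ‖f i - b‖ ≤ d := fun i hi => hf i (Finset.mem_insert_of_mem hi)
    have hfj : ‖f j - b‖ ≤ d := hf j (Finset.mem_insert_self j t)
    have ih' := ih hft
    rw [Finset.prod_insert hj, Finset.card_insert_of_notMem hj, Nat.add_sub_cancel]
    have hfj' : ‖f j‖ ≤ a + d := by
      have h1 : f j = b + (f j - b) := by ring
      rw [h1]
      exact (norm_add_le _ _).trans (add_le_add hb hfj)
    have e : f j * ∏ i ∈ t, f i - b ^ (t.card + 1) =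
        f j * (∏ i ∈ t, f i - b ^ t.card) + (f j - b) * b ^ t.card := by ring
    rw [e]
    have h2 : ‖f j * (∏ i ∈ t, f i - b ^ t.card)‖ ≤
        (a + d) * (t.card * d * (a + d) ^ (t.card - 1)) := by
      rw [norm_mul]
      gcongr
    have h3 : ‖(f j - b) * b ^ t.card‖ ≤ d * (a + d) ^ t.card := by
      rw [norm_mul, norm_pow]
      gcongr
      linarith
    have h4 : (a + d) * (t.card * d * (a + d) ^ (t.card - 1)) = t.card * d * (a + d) ^ t.card := by
      rcases Nat.eq_zero_or_pos t.card with h0 | h0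
      · rw [h0]; simp
      · obtain ⟨m, hm⟩ := Nat.exists_eq_succ_of_ne_zero h0.ne'
        rw [hm]
        simp only [Nat.succ_eq_add_one, Nat.add_sub_cancel]
        ring
    calc _ ≤ _ := norm_add_le _ _
      _ ≤ t.card * d * (a + d) ^ t.card + d * (a + d) ^ t.card := by
        rw [h4] at h2
        exact add_le_add h2 h3
      _ = _ := by push_cast; ring

/-- the pointwise bound -/
lemma pointwise {n : ℕ} (hn : 3 ≤ n) {a l r C1 C2 : ℝ} (ha : 0 ≤ a) (hl : 0 < l) (hr : 0 < r)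
    (hC1 : 0 < C1) (hC2 : 0 < C2) (h1 : a ≤ 3 * r) (h2 : a ≤ C2 * r / l) :
    C1 * l * (a + C1 * l) ^ n ≤
      (2 ^ n * C1 * (2 * (3 ^ n + C2 ^ n) + C1 ^ n)) * (r ^ n / (1 + l ^ 2) + l ^ (n + 1)) := by
  have hmax : (a + C1 * l) ^ n ≤ 2 ^ n * (a ^ n + (C1 * l) ^ n) := by
    have h3 : a + C1 * l ≤ 2 * max a (C1 * l) := by
      have := le_max_left a (C1 * l)
      have := le_max_right a (C1 * l)
      linarith
    calc (a + C1 * l) ^ n ≤ (2 * max a (C1 * l)) ^ n := by gcongr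
      _ = 2 ^ n * (max a (C1 * l)) ^ n := by rw [mul_pow]
      _ ≤ 2 ^ n * (a ^ n + (C1 * l) ^ n) := by
        gcongr
        rcases max_choice a (C1 * l) with h | h <;> rw [h]
        · have : 0 ≤ (C1 * l) ^ n := by positivity
          linarith
        · have : 0 ≤ a ^ n := by positivity
          linarith
  have hmain : l * a ^ n ≤ 2 * (3 ^ n + C2 ^ n) * (r ^ n / (1 + l ^ 2)) := by
    have hr' : 0 < r ^ n := by positivity
    rcases le_total l 1 with hl1 | hl1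
    · have h4 : l * a ^ n ≤ 1 * (3 * r) ^ n := by gcongr
      have h5 : r ^ n ≤ 2 * (r ^ n / (1 + l ^ 2)) := by
        have h6 : l ^ 2 ≤ 1 := by nlinarith
        rw [mul_div_assoc', le_div_iff₀ (by positivity)]
        nlinarith [mul_le_mul_of_nonneg_left h6 hr'.le]
      calc l * a ^ n ≤ 3 ^ n * r ^ n := by rw [← mul_pow]; linarith
        _ ≤ 3 ^ n * (2 * (r ^ n / (1 + l ^ 2))) := by gcongr
        _ ≤ _ := by
          have : 0 ≤ C2 ^ n * (r ^ n / (1 + l ^ 2)) := by positivity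
          nlinarith
    · have h4 : l * a ^ n ≤ l * (C2 * r / l) ^ n := by gcongr
      have h5 : l * (C2 * r / l) ^ n = C2 ^ n * r ^ n * (l / l ^ n) := by
        rw [div_pow, mul_pow]
        ring
      have h6 : l / l ^ n ≤ 2 / (1 + l ^ 2) := by
        rw [div_le_div_iff₀ (by positivity) (by positivity)]
        have h7 : l ^ 3 ≤ l ^ n := pow_le_pow_right₀ hl1 hn
        nlinarith [mul_pos hl hl]
      calc l * a ^ n ≤ C2 ^ n * r ^ n * (l / l ^ n) := by rw [← h5]; exact h4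
        _ ≤ C2 ^ n * r ^ n * (2 / (1 + l ^ 2)) := by gcongr
        _ = 2 * C2 ^ n * (r ^ n / (1 + l ^ 2)) := by ring
        _ ≤ _ := by
          have : 0 ≤ 3 ^ n * (r ^ n / (1 + l ^ 2)) := by positivity
          nlinarith
  have hX : 0 ≤ r ^ n / (1 + l ^ 2) := by positivity
  have hY : 0 ≤ l ^ (n + 1) := by positivity
  calc C1 * l * (a + C1 * l) ^ n ≤ C1 * l * (2 ^ n * (a ^ n + (C1 * l) ^ n)) := by gcongr
    _ = 2 ^ n * C1 * (l * a ^ n + C1 ^ n * l ^ (n + 1)) := by rw [mul_pow]; ring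
    _ ≤ 2 ^ n * C1 * (2 * (3 ^ n + C2 ^ n) * (r ^ n / (1 + l ^ 2)) + C1 ^ n * l ^ (n + 1)) := by
      gcongr
    _ ≤ 2 ^ n * C1 * ((2 * (3 ^ n + C2 ^ n) + C1 ^ n) * (r ^ n / (1 + l ^ 2) + l ^ (n + 1))) := by
      gcongr
      have h8 : 0 ≤ 2 * (3 ^ n + C2 ^ n) * l ^ (n + 1) := by positivity
      have h9 : 0 ≤ C1 ^ n * (r ^ n / (1 + l ^ 2)) := by positivity
      nlinarith
    _ = _ := by ring

theorem low {k s : ℕ} (hk : 2 ≤ k) (hs : 5 ≤ s) (hJ : S_J k) (hSJ : S_SJ k) (hT : S_TRIV k) :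
    S_LOW k s := by
  obtain ⟨C2, hC2, hJ⟩ := hJ
  obtain ⟨C1, hC1, hSJ⟩ := hSJ
  obtain ⟨-, hJ3, hSc, hJc, -⟩ := hT
  obtain ⟨n, rfl⟩ : ∃ n, s = n + 1 := ⟨s - 1, by omega⟩
  set K : ℝ := (n + 1 : ℕ) * (2 ^ n * C1 * (2 * (3 ^ n + C2 ^ n) + C1 ^ n)) with hK
  have hK0 : 0 < K := by positivity
  refine ⟨K * (π + 2), by positivity, fun R θ hR hθ => ?_⟩
  set r : ℝ := (R : ℝ) with hr
  have hr1 : 1 ≤ r := by rw [hr]; exact_mod_cast hR
  have hr0 : 0 < r := by linarith
  have hpt : ∀ τ : ℝ, ‖∏ i, S k R τ (θ i) - J k R τ ^ (n + 1)‖ ≤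
      K * (r ^ n * (1 + (τ * r ^ k) ^ 2)⁻¹ + (|τ| * r ^ k) ^ (n + 1)) := by
    intro τ
    rcases eq_or_ne τ 0 with h0 | h0
    · have h1 : ∀ i, S k R τ (θ i) = J k R τ := by
        intro i
        have := hSJ R τ (θ i) hR (hθ i)
        rw [h0, abs_zero, zero_mul, mul_zero] at this
        rw [h0]
        exact sub_eq_zero.1 (norm_le_zero_iff.1 this)
      rw [Finset.prod_congr rfl fun i _ => h1 i, Finset.prod_const, Finset.card_univ,
        Fintype.card_fin, sub_self, norm_zero]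
      positivity
    · have hl : 0 < |τ| * r ^ k := by positivity
      have h1 := prod_sub_pow (Finset.univ : Finset (Fin (n + 1))) (fun i => S k R τ (θ i))
        (J k R τ) (a := ‖J k R τ‖) (d := C1 * (|τ| * r ^ k)) le_rfl
        (fun i _ => hSJ R τ (θ i) hR (hθ i)) (by positivity)
      rw [Finset.card_univ, Fintype.card_fin, Nat.add_sub_cancel] at h1
      have h2 : ‖J k R τ‖ ≤ C2 * r / (|τ| * r ^ k) := by
        refine (hJ R τ hR h0).trans (le_of_eq ?_)
        obtain ⟨m, hm⟩ : ∃ m, k = m + 1 := ⟨k - 1, by omega⟩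
        rw [hm, Nat.add_sub_cancel, ← hr, pow_succ]
        field_simp
      have h3 := pointwise (n := n) (by omega) (norm_nonneg (J k R τ)) hl hr0 hC1 hC2
        (hJ3 R τ) h2
      have e : (τ * r ^ k) ^ 2 = (|τ| * r ^ k) ^ 2 := by
        rw [mul_pow, mul_pow, sq_abs]
      rw [e, ← div_eq_mul_inv]
      calc _ ≤ _ := h1
        _ = ((n + 1 : ℕ) : ℝ) * (C1 * (|τ| * r ^ k) * (‖J k R τ‖ + C1 * (|τ| * r ^ k)) ^ n) := by
          ring
        _ ≤ ((n + 1 : ℕ) : ℝ) * ((2 ^ n * C1 * (2 * (3 ^ n + C2 ^ n) + C1 ^ n)) *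
            (r ^ n / (1 + (|τ| * r ^ k) ^ 2) + (|τ| * r ^ k) ^ (n + 1))) := by gcongr
        _ = _ := by rw [hK]; ring
  set T0 := τ0 k R with hT0
  have hT00 : 0 ≤ T0 := by rw [hT0]; unfold τ0; positivity
  have hcL : Continuous fun τ : ℝ => ‖∏ i, S k R τ (θ i) - J k R τ ^ (n + 1)‖ := by
    refine ((continuous_finsetProd _ fun i _ => ?_).sub ((hJc R).pow _)).norm
    exact (hSc R).comp (continuous_id.prodMk continuous_const)
  have hpos : ∀ x : ℝ, 0 < 1 + x ^ 2 := fun x => by positivity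
  have hc1 : Continuous fun τ : ℝ => (1 + (τ * r ^ k) ^ 2)⁻¹ :=
    Continuous.inv₀ (by fun_prop) fun τ => (hpos _).ne'
  have hint : Integrable fun τ : ℝ => (1 + (τ * r ^ k) ^ 2)⁻¹ :=
    integrable_inv_one_add_sq.comp_mul_right' (pow_pos hr0 k).ne'
  have hval : ∫ τ : ℝ, (1 + (τ * r ^ k) ^ 2)⁻¹ = π / r ^ k := by
    rw [Measure.integral_comp_mul_right (fun x : ℝ => (1 + x ^ 2)⁻¹) (r ^ k),
      integral_univ_inv_one_add_sq, smul_eq_mul, abs_of_pos (by positivity)]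
    ring
  have hlow : ∫ τ in Set.Icc (-T0) T0, (1 + (τ * r ^ k) ^ 2)⁻¹ ≤ π / r ^ k := by
    rw [← hval]
    exact setIntegral_le_integral hint (Filter.Eventually.of_forall fun τ => by positivity)
  have hTr : T0 * r ^ k = r ^ ((3 : ℝ) / 4) := by
    rw [hT0]
    unfold τ0
    rw [← Real.rpow_natCast, ← hr, ← Real.rpow_add hr0]
    congr 1
    ring
  calc ∫ τ in Set.Icc (-T0) T0, ‖∏ i, S k R τ (θ i) - J k R τ ^ (n + 1)‖
      ≤ ∫ τ in Set.Icc (-T0) T0, K * (r ^ n * (1 + (τ * r ^ k) ^ 2)⁻¹ + (T0 * r ^ k) ^ (n + 1)) := by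
        apply setIntegral_mono_on hcL.integrableOn_Icc
          (Continuous.integrableOn_Icc (by fun_prop)) measurableSet_Icc
        intro τ hτ
        refine (hpt τ).trans ?_
        have : |τ| ≤ T0 := abs_le.2 hτ
        gcongr
    _ = K * (r ^ n * ∫ τ in Set.Icc (-T0) T0, (1 + (τ * r ^ k) ^ 2)⁻¹) +
        K * ((T0 * r ^ k) ^ (n + 1) * (2 * T0)) := by
        rw [integral_const_mul, integral_add ((hc1.const_mul _).integrableOn_Icc)
          (continuous_const.integrableOn_Icc), integral_const_mul, setIntegral_const, smul_eq_mul,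
          Real.volume_real_Icc_of_le (by linarith)]
        ring
    _ ≤ K * (r ^ n * (π / r ^ k)) + K * ((r ^ ((3 : ℝ) / 4)) ^ (n + 1) * (2 * T0)) := by
        rw [hTr]
        gcongr
    _ ≤ K * (π * r ^ (((n + 1 : ℕ) : ℝ) - k - 1 / 2)) +
        K * (2 * r ^ (((n + 1 : ℕ) : ℝ) - k - 1 / 2)) := by
        have h1 : r ^ n * (π / r ^ k) = π * r ^ ((n : ℝ) - k) := by
          rw [Real.rpow_sub hr0, Real.rpow_natCast, Real.rpow_natCast]
          ring
        have h2 : (r ^ ((3 : ℝ) / 4)) ^ (n + 1) * (2 * T0) =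
            2 * r ^ ((3 : ℝ) / 4 * (n + 1 : ℕ) + ((3 : ℝ) / 4 - k)) := by
          rw [Real.rpow_add hr0, Real.rpow_mul hr0.le, Real.rpow_natCast, hT0]
          unfold τ0
          rw [← hr]
          ring
        rw [h1, h2]
        have h5 : (5 : ℝ) ≤ (n : ℝ) + 1 := by exact_mod_cast hs
        gcongr K * (π * ?_) + K * (2 * ?_)
        · apply Real.rpow_le_rpow_of_exponent_le hr1
          push_cast
          linarith
        · apply Real.rpow_le_rpow_of_exponent_le hr1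
          push_cast
          linarith
    _ = K * (π + 2) * r ^ (((n + 1 : ℕ) : ℝ) - k - 1 / 2) := by ring

end Pool.Agent.W5h6.SW
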