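import Pool.Agent.W5h6.SW.Defs

/-! The high frequencies, in mean square over the shifts. -/

set_option autoImplicit false

open MeasureTheory Set
open scoped Real ENNReal

namespace Pool.Agent.W5h6.SW

namespace PD

/-- The tail integral. -/
theorem tail {t : ℝ} (ht : 0 < t) {s : ℕ} (hs : 5 ≤ s) :
    ∫⁻ τ in (Icc (-t) t)ᶜ, ENNReal.ofReal (|τ| ^ (-(s : ℝ))) ≤
      ENNReal.ofReal (2 * t ^ (1 - (s : ℝ))) := by
  have hs' : (5 : ℝ) ≤ s := by exact_mod_cast hs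
  set u : ℝ → ℝ≥0∞ := (Ioi t).indicator fun τ => ENNReal.ofReal (τ ^ (-(s : ℝ))) with hu
  have hum : Measurable u := by
    refine Measurable.indicator ?_ measurableSet_Ioi
    fun_prop
  have h1 : ∫⁻ τ in (Icc (-t) t)ᶜ, ENNReal.ofReal (|τ| ^ (-(s : ℝ))) ≤
      ∫⁻ τ, (u τ + u (-τ)) := by
    rw [← lintegral_indicator measurableSet_Icc.compl]
    refine lintegral_mono fun τ => ?_
    by_cases hτ : τ ∈ (Icc (-t) t)ᶜ
    · rw [indicator_of_mem hτ]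
      rw [mem_compl_iff, mem_Icc, not_and_or, not_le, not_le] at hτ
      rcases hτ with hτ | hτ
      · refine le_add_left ?_
        have h2 : -τ ∈ Ioi t := by
          rw [mem_Ioi]
          linarith
        rw [hu, indicator_of_mem h2, abs_of_neg (by linarith)]
      · refine le_add_right ?_
        have h2 : τ ∈ Ioi t := hτ
        rw [hu, indicator_of_mem h2, abs_of_pos (by linarith)]
    · rw [indicator_of_notMem hτ]
      exact zero_le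
  refine h1.trans ?_
  rw [lintegral_add_left hum, lintegral_neg_eq_self u, hu,
    lintegral_indicator measurableSet_Ioi, ← two_mul,
    ← ofReal_integral_eq_lintegral_ofReal (integrableOn_Ioi_rpow_of_lt (by linarith) ht)
      ((ae_restrict_mem measurableSet_Ioi).mono fun x hx => by
        rw [mem_Ioi] at hx
        exact Real.rpow_nonneg (by linarith) _),
    integral_Ioi_rpow_of_lt (by linarith) ht]
  rw [show (2 : ℝ≥0∞) = ENNReal.ofReal 2 by simp, ← ENNReal.ofReal_mul (by norm_num)]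
  refine ENNReal.ofReal_le_ofReal ?_
  have h3 : 0 < t ^ (-(s : ℝ) + 1) := Real.rpow_pos_of_pos ht _
  rw [show (1 : ℝ) - s = -(s : ℝ) + 1 by ring]
  have h4 : -t ^ (-(s : ℝ) + 1) / (-(s : ℝ) + 1) = t ^ (-(s : ℝ) + 1) / (s - 1) := by
    rw [← neg_div_neg_eq]
    congr 1
    · ring
    · ring
  rw [h4]
  gcongr
  exact div_le_self h3.le (by linarith)

/-- The integral of a product over the unit cube. -/
theorem box_prod (s : ℕ) (f : ℝ → ℝ) (hf : Continuous f) (h0 : ∀ x, 0 ≤ f x) :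
    ∫⁻ θ in Icc (0 : Fin s → ℝ) 1, ENNReal.ofReal (∏ i, f (θ i)) =
      ENNReal.ofReal ((∫ x in (0 : ℝ)..1, f x) ^ s) := by
  have hI : IntegrableOn (fun θ : Fin s → ℝ => ∏ i, f (θ i)) (Icc (0 : Fin s → ℝ) 1) :=
    (by fun_prop : Continuous fun θ : Fin s → ℝ => ∏ i, f (θ i)).continuousOn.integrableOn_compact
      isCompact_Icc
  rw [← ofReal_integral_eq_lintegral_ofReal hI (Filter.Eventually.of_forall fun θ =>
    Finset.prod_nonneg fun i _ => h0 _)]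
  congr 1
  rw [← Set.pi_univ_Icc, volume_pi, Measure.restrict_pi_pi,
    integral_fintype_prod_eq_prod (fun (_ : Fin s) x => f x)]
  simp only [Pi.zero_apply, Pi.one_apply, Finset.prod_const, Finset.card_univ, Fintype.card_fin]
  rw [intervalIntegral.integral_of_le zero_le_one, integral_Icc_eq_integral_Ioc]

/-- The inner integral, over the shifts. -/
theorem inner {k s : ℕ} (hT : S_TRIV k) (R : ℕ) (τ x : ℝ) (hx : 0 ≤ x) :
    ∫⁻ θ in Icc (0 : Fin s → ℝ) 1,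
      ENNReal.ofReal ((x * ‖∏ i, S k R τ (θ i) - J k R τ ^ s‖) ^ 2) ≤
      ENNReal.ofReal (4 * x ^ 2 * A k R τ ^ s) := by
  obtain ⟨-, -, hcS, -, hJA⟩ := hT
  have hA0 : 0 ≤ A k R τ := (sq_nonneg _).trans (hJA R τ)
  have hAs : 0 ≤ A k R τ ^ s := pow_nonneg hA0 s
  have hcf : Continuous fun θ : ℝ => ‖S k R τ θ‖ ^ 2 := by
    have h1 : Continuous fun θ : ℝ => S k R τ θ :=
      (hcS R).comp (f := fun θ : ℝ => (τ, θ)) (by fun_prop)
    exact h1.norm.pow 2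
  have hbox := box_prod s (fun θ => ‖S k R τ θ‖ ^ 2) hcf fun θ => by positivity
  have hpt : ∀ θ : Fin s → ℝ, ENNReal.ofReal ((x * ‖∏ i, S k R τ (θ i) - J k R τ ^ s‖) ^ 2) ≤
      ENNReal.ofReal (2 * x ^ 2) *
        (ENNReal.ofReal (∏ i, ‖S k R τ (θ i)‖ ^ 2) + ENNReal.ofReal (A k R τ ^ s)) := by
    intro θ
    have hp0 : 0 ≤ ∏ i, ‖S k R τ (θ i)‖ ^ 2 := Finset.prod_nonneg fun i _ => by positivity
    rw [← ENNReal.ofReal_add hp0 hAs, ← ENNReal.ofReal_mul (by positivity)]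
    refine ENNReal.ofReal_le_ofReal ?_
    have h1 : ‖∏ i, S k R τ (θ i) - J k R τ ^ s‖ ≤ ‖∏ i, S k R τ (θ i)‖ + ‖J k R τ ^ s‖ :=
      norm_sub_le _ _
    have h2 : ‖∏ i, S k R τ (θ i)‖ ^ 2 = ∏ i, ‖S k R τ (θ i)‖ ^ 2 := by
      rw [norm_prod, Finset.prod_pow]
    have h3 : ‖J k R τ ^ s‖ ^ 2 ≤ A k R τ ^ s := by
      rw [norm_pow, ← pow_mul, mul_comm s 2, pow_mul]
      exact pow_le_pow_left₀ (by positivity) (hJA R τ) s
    have h4 : ‖∏ i, S k R τ (θ i) - J k R τ ^ s‖ ^ 2 ≤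
        2 * (∏ i, ‖S k R τ (θ i)‖ ^ 2 + A k R τ ^ s) := by
      calc ‖∏ i, S k R τ (θ i) - J k R τ ^ s‖ ^ 2
          ≤ (‖∏ i, S k R τ (θ i)‖ + ‖J k R τ ^ s‖) ^ 2 := by gcongr
        _ ≤ 2 * (‖∏ i, S k R τ (θ i)‖ ^ 2 + ‖J k R τ ^ s‖ ^ 2) := by
          nlinarith [sq_nonneg (‖∏ i, S k R τ (θ i)‖ - ‖J k R τ ^ s‖)]
        _ ≤ _ := by rw [h2]; gcongr
    calc (x * ‖∏ i, S k R τ (θ i) - J k R τ ^ s‖) ^ 2
        = x ^ 2 * ‖∏ i, S k R τ (θ i) - J k R τ ^ s‖ ^ 2 := by rw [mul_pow]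
      _ ≤ x ^ 2 * (2 * (∏ i, ‖S k R τ (θ i)‖ ^ 2 + A k R τ ^ s)) := by gcongr
      _ = _ := by ring
  refine (lintegral_mono hpt).trans ?_
  have hm : Measurable fun θ : Fin s → ℝ => ENNReal.ofReal (∏ i, ‖S k R τ (θ i)‖ ^ 2) := by
    refine Measurable.ennreal_ofReal ?_
    refine Continuous.measurable ?_
    exact continuous_finsetProd _ fun i _ => hcf.comp (continuous_apply i)
  rw [lintegral_const_mul _ (hm.add_const _), lintegral_add_left hm, lintegral_const, hbox]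
  have hvol : (volume.restrict (Icc (0 : Fin s → ℝ) 1)) univ = 1 := by
    rw [Measure.restrict_apply_univ, Real.volume_Icc_pi]
    simp
  rw [hvol, mul_one]
  change ENNReal.ofReal (2 * x ^ 2) * (ENNReal.ofReal (A k R τ ^ s) +
    ENNReal.ofReal (A k R τ ^ s)) ≤ _
  rw [← ENNReal.ofReal_add hAs hAs, ← ENNReal.ofReal_mul (by positivity)]
  refine ENNReal.ofReal_le_ofReal (le_of_eq ?_)
  ring

end PD

open PD

theorem high {k s : ℕ} (hk : 2 ≤ k) (hs : 5 ≤ s) (hA : S_A k) (hT : S_TRIV k) : S_HIGH k s := by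
  obtain ⟨C1, hC1, hA⟩ := hA
  have hT' := hT
  obtain ⟨-, -, hcS, hcJ, hJA⟩ := hT'
  have hl2 : 0 < Real.log 2 := Real.log_pos (by norm_num)
  refine ⟨4 * (2 * C1) ^ s * ((Real.log 2)⁻¹ ^ s + 2), by positivity, ?_⟩
  intro R η c G hR hη hc hG hGb hGi hG2
  have hR2 : (2 : ℝ) ≤ R := by exact_mod_cast hR
  have hR0 : (0 : ℝ) < R := by linarith
  have hlR : Real.log 2 ≤ Real.log R := Real.log_le_log (by norm_num) hR2
  have hlR0 : 0 < Real.log R := by linarith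
  have hτ0 : 0 < τ0 k R := Real.rpow_pos_of_pos hR0 _
  have hcont : Continuous fun p : (Fin s → ℝ) × ℝ =>
      (‖G p.2‖ * ‖∏ i, S k R p.2 (p.1 i) - J k R p.2 ^ s‖) ^ 2 := by
    have h1 : ∀ i : Fin s, Continuous fun p : (Fin s → ℝ) × ℝ => S k R p.2 (p.1 i) := fun i =>
      (hcS R).comp (f := fun p : (Fin s → ℝ) × ℝ => (p.2, p.1 i)) (by fun_prop)
    have h2 : Continuous fun p : (Fin s → ℝ) × ℝ => J k R p.2 := (hcJ R).comp continuous_snd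
    have h3 : Continuous fun p : (Fin s → ℝ) × ℝ => ∏ i, S k R p.2 (p.1 i) :=
      continuous_finsetProd _ fun i _ => h1 i
    exact ((hG.comp continuous_snd).norm.mul (h3.sub (h2.pow s)).norm).pow 2
  rw [lintegral_lintegral_swap (f := fun (θ : Fin s → ℝ) (τ : ℝ) =>
    ENNReal.ofReal ((‖G τ‖ * ‖∏ i, S k R τ (θ i) - J k R τ ^ s‖) ^ 2))
    hcont.measurable.ennreal_ofReal.aemeasurable]
  set K1 : ℝ := 4 * (2 * C1) ^ s * (R : ℝ) ^ s with hK1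
  set K2 : ℝ := 4 * (2 * C1) ^ s * (c * η) ^ 2 * (Real.log R) ^ s *
    (((R : ℝ) ^ (k - 2)) ^ s)⁻¹ with hK2
  have hK10 : 0 ≤ K1 := by positivity
  have hK20 : 0 ≤ K2 := by positivity
  have hpt : ∀ τ ∈ (Icc (-τ0 k R) (τ0 k R))ᶜ, ∫⁻ θ in Icc (0 : Fin s → ℝ) 1,
      ENNReal.ofReal ((‖G τ‖ * ‖∏ i, S k R τ (θ i) - J k R τ ^ s‖) ^ 2) ≤
      ENNReal.ofReal K1 * ENNReal.ofReal (‖G τ‖ ^ 2) +
      ENNReal.ofReal K2 * ENNReal.ofReal (|τ| ^ (-(s : ℝ))) := by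
    intro τ hτ
    have hτne : τ ≠ 0 := by
      rintro rfl
      exact hτ ⟨by linarith, hτ0.le⟩
    have hτ1 : 0 < |τ| := abs_pos.2 hτne
    refine (inner hT R τ ‖G τ‖ (norm_nonneg _)).trans ?_
    have hrp : 0 ≤ |τ| ^ (-(s : ℝ)) := Real.rpow_nonneg (abs_nonneg _) _
    rw [← ENNReal.ofReal_mul hK10, ← ENNReal.ofReal_mul hK20,
      ← ENNReal.ofReal_add (by positivity) (by positivity)]
    refine ENNReal.ofReal_le_ofReal ?_
    have hA0 : 0 ≤ A k R τ := (sq_nonneg _).trans (hJA R τ)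
    have h1 : A k R τ ^ s ≤ (2 * C1) ^ s * ((R : ℝ) ^ s +
        (Real.log R / (|τ| * (R : ℝ) ^ (k - 2))) ^ s) := by
      calc A k R τ ^ s ≤ (C1 * ((R : ℝ) + Real.log R / (|τ| * (R : ℝ) ^ (k - 2)))) ^ s :=
            pow_le_pow_left₀ hA0 (hA R τ hR hτne) s
        _ = C1 ^ s * ((R : ℝ) + Real.log R / (|τ| * (R : ℝ) ^ (k - 2))) ^ s := mul_pow _ _ _
        _ ≤ C1 ^ s * (2 ^ (s - 1) * ((R : ℝ) ^ s +
            (Real.log R / (|τ| * (R : ℝ) ^ (k - 2))) ^ s)) := by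
            gcongr
            exact add_pow_le hR0.le (by positivity) s
        _ ≤ C1 ^ s * (2 ^ s * ((R : ℝ) ^ s +
            (Real.log R / (|τ| * (R : ℝ) ^ (k - 2))) ^ s)) := by
            gcongr
            · norm_num
            · omega
        _ = _ := by rw [mul_pow]; ring
    have h2 : (Real.log R / (|τ| * (R : ℝ) ^ (k - 2))) ^ s =
        (Real.log R) ^ s * (((R : ℝ) ^ (k - 2)) ^ s)⁻¹ * |τ| ^ (-(s : ℝ)) := by
      rw [div_pow, mul_pow, Real.rpow_neg (abs_nonneg _), Real.rpow_natCast]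
      field_simp
    rw [h2] at h1
    have h3 : ‖G τ‖ ^ 2 ≤ (c * η) ^ 2 := pow_le_pow_left₀ (norm_nonneg _) (hGb τ) 2
    calc 4 * ‖G τ‖ ^ 2 * A k R τ ^ s
        ≤ 4 * ‖G τ‖ ^ 2 * ((2 * C1) ^ s * ((R : ℝ) ^ s +
          (Real.log R) ^ s * (((R : ℝ) ^ (k - 2)) ^ s)⁻¹ * |τ| ^ (-(s : ℝ)))) := by gcongr
      _ = K1 * ‖G τ‖ ^ 2 + 4 * ‖G τ‖ ^ 2 * ((2 * C1) ^ s *
          ((Real.log R) ^ s * (((R : ℝ) ^ (k - 2)) ^ s)⁻¹ * |τ| ^ (-(s : ℝ)))) := by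
          rw [hK1]; ring
      _ ≤ K1 * ‖G τ‖ ^ 2 + 4 * (c * η) ^ 2 * ((2 * C1) ^ s *
          ((Real.log R) ^ s * (((R : ℝ) ^ (k - 2)) ^ s)⁻¹ * |τ| ^ (-(s : ℝ)))) := by gcongr
      _ = _ := by rw [hK2]; ring
  refine (setLIntegral_mono' measurableSet_Icc.compl hpt).trans ?_
  have hGm : Measurable fun τ => ENNReal.ofReal K1 * ENNReal.ofReal (‖G τ‖ ^ 2) :=
    (hG.norm.pow 2).measurable.ennreal_ofReal.const_mul _
  have hGm2 : Measurable fun τ => ENNReal.ofReal (‖G τ‖ ^ 2) :=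
    (hG.norm.pow 2).measurable.ennreal_ofReal
  rw [lintegral_add_left hGm, lintegral_const_mul _ hGm2, lintegral_const_mul _ (by fun_prop)]
  have h4 : ∫⁻ τ in (Icc (-τ0 k R) (τ0 k R))ᶜ, ENNReal.ofReal (‖G τ‖ ^ 2) ≤
      ENNReal.ofReal (c ^ 2 * η) := by
    refine (setLIntegral_le_lintegral _ _).trans ?_
    rw [← ofReal_integral_eq_lintegral_ofReal hGi (Filter.Eventually.of_forall fun τ => by
      positivity)]
    exact ENNReal.ofReal_le_ofReal hG2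
  have h5 := tail hτ0 hs
  have hτp : 0 ≤ τ0 k R ^ (1 - (s : ℝ)) := Real.rpow_nonneg hτ0.le _
  have h45 : ENNReal.ofReal K1 * (∫⁻ (a : ℝ) in (Icc (-τ0 k R) (τ0 k R))ᶜ,
      ENNReal.ofReal (‖G a‖ ^ 2)) + ENNReal.ofReal K2 * (∫⁻ (a : ℝ) in
      (Icc (-τ0 k R) (τ0 k R))ᶜ, ENNReal.ofReal (|a| ^ (-(s : ℝ)))) ≤
      ENNReal.ofReal K1 * ENNReal.ofReal (c ^ 2 * η) +
      ENNReal.ofReal K2 * ENNReal.ofReal (2 * τ0 k R ^ (1 - (s : ℝ))) := by gcongr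
  refine h45.trans ?_
  rw [← ENNReal.ofReal_mul hK10, ← ENNReal.ofReal_mul hK20,
    ← ENNReal.ofReal_add (by positivity) (by positivity)]
  refine ENNReal.ofReal_le_ofReal ?_
  -- the exponent
  have hexp : (((R : ℝ) ^ (k - 2)) ^ s)⁻¹ * τ0 k R ^ (1 - (s : ℝ)) =
      (R : ℝ) ^ (2 * (s : ℝ) - k - 3 / 4 * (s - 1)) := by
    rw [τ0, ← Real.rpow_mul hR0.le, ← pow_mul, ← Real.rpow_natCast, ← Real.rpow_neg hR0.le,
      ← Real.rpow_add hR0]
    congr 1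
    push_cast [Nat.cast_sub hk]
    ring
  have h6 : K2 * (2 * τ0 k R ^ (1 - (s : ℝ))) = 4 * (2 * C1) ^ s * 2 * c ^ 2 *
      (Real.log R) ^ s * (η ^ 2 * (R : ℝ) ^ (2 * (s : ℝ) - k - 3 / 4 * (s - 1))) := by
    rw [← hexp, hK2]
    ring
  have h7 : 1 ≤ (Real.log 2)⁻¹ ^ s * (Real.log R) ^ s := by
    rw [← mul_pow]
    refine one_le_pow₀ ?_
    rw [inv_mul_eq_div, one_le_div hl2]
    exact hlR
  have h8 : K1 * (c ^ 2 * η) ≤ 4 * (2 * C1) ^ s * ((Real.log 2)⁻¹ ^ s) * c ^ 2 *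
      (Real.log R) ^ s * (η * (R : ℝ) ^ s) := by
    calc K1 * (c ^ 2 * η) = 4 * (2 * C1) ^ s * 1 * c ^ 2 * (η * (R : ℝ) ^ s) := by
          rw [hK1]; ring
      _ ≤ 4 * (2 * C1) ^ s * ((Real.log 2)⁻¹ ^ s * (Real.log R) ^ s) * c ^ 2 *
          (η * (R : ℝ) ^ s) := by gcongr
      _ = _ := by ring
  rw [h6]
  refine (add_le_add_left h8 _).trans ?_
  have hE : 0 ≤ (R : ℝ) ^ (2 * (s : ℝ) - k - 3 / 4 * (s - 1)) := Real.rpow_nonneg hR0.le _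
  have h9 : 0 ≤ 4 * (2 * C1) ^ s * 2 * c ^ 2 * (Real.log R) ^ s * (η * (R : ℝ) ^ s) := by
    positivity
  have h10 : 0 ≤ 4 * (2 * C1) ^ s * ((Real.log 2)⁻¹ ^ s) * c ^ 2 * (Real.log R) ^ s *
      (η ^ 2 * (R : ℝ) ^ (2 * (s : ℝ) - k - 3 / 4 * (s - 1))) := by positivity
  nlinarith [h9, h10]

end Pool.Agent.W5h6.SW
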