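import Mathlib
import Pool.Agent.W5h6.SW.Defs

/-! (M): lower bound for the volume `mu`. -/

set_option autoImplicit false

open MeasureTheory
open scoped Real

namespace Pool.Agent.W5h6.SW

theorem pow_diff {x y B : ℝ} (hx : 0 ≤ x) (hxy : x ≤ y) (hy : y ≤ B) (n : ℕ) :
    y ^ (n + 1) - x ^ (n + 1) ≤ ((n : ℝ) + 1) * B ^ n * (y - x) := by
  induction n with
  | zero => simp
  | succ n ih =>
    have hy0 : 0 ≤ y := hx.trans hxy
    have hB : 0 ≤ B := hy0.trans hy
    have h1 : y ^ (n + 1 + 1) - x ^ (n + 1 + 1) = y * (y ^ (n + 1) - x ^ (n + 1))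
        + x ^ (n + 1) * (y - x) := by ring
    have h2 : y * (y ^ (n + 1) - x ^ (n + 1)) ≤ B * (((n : ℝ) + 1) * B ^ n * (y - x)) := by
      refine mul_le_mul hy ih ?_ hB
      have := pow_le_pow_left₀ hx hxy (n + 1)
      linarith
    have h3 : x ^ (n + 1) * (y - x) ≤ B ^ (n + 1) * (y - x) :=
      mul_le_mul_of_nonneg_right (pow_le_pow_left₀ hx (hxy.trans hy) _) (by linarith)
    rw [h1]
    push_cast
    calc y * (y ^ (n + 1) - x ^ (n + 1)) + x ^ (n + 1) * (y - x)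
        ≤ B * (((n : ℝ) + 1) * B ^ n * (y - x)) + B ^ (n + 1) * (y - x) := add_le_add h2 h3
      _ = ((n : ℝ) + 1 + 1) * B ^ (n + 1) * (y - x) := by ring

/-- The `y` in the box with `∑ y_i^k` within `η/2` of `t`. -/
def EE (k s R : ℕ) (η t : ℝ) : Set (Fin s → ℝ) :=
  Set.Icc (fun _ : Fin s => (R : ℝ)) (fun _ => 4 * (R : ℝ)) ∩
    {y | |∑ i, y i ^ k - t| ≤ η / 2}

theorem EE_closed (k s R : ℕ) (η t : ℝ) : IsClosed (EE k s R η t) := by
  refine isClosed_Icc.inter (isClosed_le ?_ continuous_const)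
  fun_prop

theorem mu_ge_vol (k s R : ℕ) {η t : ℝ} (hη : 0 < η) :
    (volume (EE k s R η t)).toReal ≤ mu k s R η t := by
  have hcont : Continuous fun y : Fin s → ℝ => (bump ((∑ i, y i ^ k - t) / η) : ℝ) :=
    bump.continuous.comp (by fun_prop)
  have hint : IntegrableOn (fun y : Fin s → ℝ => (bump ((∑ i, y i ^ k - t) / η) : ℝ))
      (Set.Icc (fun _ : Fin s => (R : ℝ)) (fun _ => 4 * (R : ℝ))) :=
    hcont.continuousOn.integrableOn_compact isCompact_Icc
  have h1 : ∫ y in EE k s R η t, (bump ((∑ i, y i ^ k - t) / η) : ℝ) ≤ mu k s R η t := by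
    refine setIntegral_mono_set hint (Filter.Eventually.of_forall fun y => bump.nonneg) ?_
    exact (Set.inter_subset_left).eventuallyLE
  have h2 : ∫ y in EE k s R η t, (bump ((∑ i, y i ^ k - t) / η) : ℝ)
      = ∫ y in EE k s R η t, (1 : ℝ) := by
    refine setIntegral_congr_fun (EE_closed k s R η t).measurableSet fun y hy => ?_
    refine bump.one_of_mem_closedBall ?_
    have hy2 : |∑ i, y i ^ k - t| ≤ η / 2 := hy.2
    rw [Metric.mem_closedBall, dist_zero_right, Real.norm_eq_abs, abs_div, abs_of_pos hη]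
    show |∑ i, y i ^ k - t| / η ≤ 1 / 2
    rw [div_le_iff₀ hη]
    linarith
  rw [h2, setIntegral_const] at h1
  simpa [Measure.real] using h1

theorem mu_ge {k s : ℕ} (hk : 2 ≤ k) (hs : 5 ≤ s) : S_MU k s := by
  obtain ⟨m, rfl⟩ : ∃ m, s = m + 1 := ⟨s - 1, by omega⟩
  obtain ⟨n, rfl⟩ : ∃ n, k = n + 1 := ⟨k - 1, by omega⟩
  have hn : 1 ≤ n := by omega
  set K : ℝ := ((n : ℝ) + 1) * 4 ^ n with hK
  have hn1 : (1 : ℝ) ≤ n := by exact_mod_cast hn
  have h4n : (4 : ℝ) ≤ 4 ^ n := by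
    calc (4 : ℝ) = 4 ^ 1 := by norm_num
      _ ≤ 4 ^ n := pow_le_pow_right₀ (by norm_num) hn
  have hK8 : 8 ≤ K := by rw [hK]; nlinarith
  have hK0 : 0 < K := by linarith
  set a : ℝ := 1 / (2 * ((m : ℝ) + 1) * K) with ha
  have hm0 : (0 : ℝ) ≤ m := Nat.cast_nonneg m
  have ha0 : 0 < a := by positivity
  have hma : (m : ℝ) * K * a ≤ 1 / 2 := by
    rw [ha, mul_one_div, div_le_iff₀ (by positivity)]
    nlinarith
  have ha4 : a ≤ 1 / 16 := by
    rw [ha, div_le_div_iff₀ (by positivity) (by norm_num)]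
    nlinarith
  refine ⟨a ^ m / (2 * K), by positivity, 1, fun R η t hR hη hη1 ht => ?_⟩
  have hR1 : (1 : ℝ) ≤ R := by exact_mod_cast hR
  have hR0 : (0 : ℝ) < R := by linarith
  push_cast at ht
  obtain ⟨ht1, ht2⟩ := ht
  have hm1 : (0 : ℝ) < (m : ℝ) + 1 := by positivity
  -- ρ
  have ht0 : 0 ≤ t := le_trans (by positivity) ht1
  set ρ : ℝ := (t / ((m : ℝ) + 1)) ^ (((n + 1 : ℕ) : ℝ)⁻¹) with hρ
  have hρ0 : 0 ≤ ρ := Real.rpow_nonneg (by positivity) _
  have hρk : ρ ^ (n + 1) = t / ((m : ℝ) + 1) :=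
    Real.rpow_inv_natCast_pow (by positivity) (by omega)
  have htρ : t = ((m : ℝ) + 1) * ρ ^ (n + 1) := by rw [hρk]; field_simp
  have hρ1 : 1.4 * (R : ℝ) ≤ ρ := by
    refine le_of_pow_le_pow_left₀ (n := n + 1) (by omega) hρ0 ?_
    rw [hρk, le_div_iff₀ hm1]; linarith
  have hρ2 : ρ ≤ 3.1 * (R : ℝ) := by
    refine le_of_pow_le_pow_left₀ (n := n + 1) (by omega) (by positivity) ?_
    rw [hρk, div_le_iff₀ hm1]; linarith
  -- h
  set h : ℝ := η / (2 * K * (R : ℝ) ^ n) with hh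
  have hRn : (1 : ℝ) ≤ (R : ℝ) ^ n := one_le_pow₀ hR1
  have hh0 : 0 < h := by positivity
  have hh1 : h ≤ 1 / 16 := by
    rw [hh, div_le_div_iff₀ (by positivity) (by norm_num)]
    nlinarith
  set v : (Fin m → ℝ) → ℝ := fun z => (t - ∑ i, z i ^ (n + 1)) ^ (((n + 1 : ℕ) : ℝ)⁻¹) with hv
  have hvc : Continuous v := by
    refine Continuous.rpow_const (by fun_prop) fun x => Or.inr (by positivity)
  set box : Set (Fin m → ℝ) := Set.Icc (fun _ => ρ - a * R) (fun _ => ρ) with hbox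
  -- estimates on the box
  have key : ∀ z ∈ box, ∀ y ∈ Set.Icc (v z) (v z + h),
      (Fin.cons y z : Fin (m + 1) → ℝ) ∈ EE (n + 1) (m + 1) R η t := by
    intro z hz y hy
    have hz1 : ∀ i, ρ - a * R ≤ z i := fun i => hz.1 i
    have hz2 : ∀ i, z i ≤ ρ := fun i => hz.2 i
    have haR : a * R ≤ 0.4 * R := by nlinarith
    have hzR : ∀ i, (R : ℝ) ≤ z i := fun i => by linarith [hz1 i]
    have hz4 : ∀ i, z i ≤ 4 * (R : ℝ) := fun i => by linarith [hz2 i]
    have hz0 : ∀ i, 0 ≤ z i := fun i => hR0.le.trans (hzR i)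
    have hsum1 : ∑ i, z i ^ (n + 1) ≤ m * ρ ^ (n + 1) := by
      calc ∑ i, z i ^ (n + 1) ≤ ∑ _i : Fin m, ρ ^ (n + 1) :=
            Finset.sum_le_sum fun i _ => pow_le_pow_left₀ (hz0 i) (hz2 i) _
        _ = m * ρ ^ (n + 1) := by simp
    have hsum2 : m * ρ ^ (n + 1) - ∑ i, z i ^ (n + 1) ≤ 1 / 2 * (R : ℝ) ^ (n + 1) := by
      have h1 : ∀ i, ρ ^ (n + 1) - z i ^ (n + 1) ≤ K * a * (R : ℝ) ^ (n + 1) := by
        intro i
        have h2 := pow_diff (hz0 i) (hz2 i) (show ρ ≤ 4 * (R : ℝ) by linarith) n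
        have h3 : ρ - z i ≤ a * R := by linarith [hz1 i]
        calc ρ ^ (n + 1) - z i ^ (n + 1) ≤ ((n : ℝ) + 1) * (4 * (R : ℝ)) ^ n * (ρ - z i) := h2
          _ ≤ ((n : ℝ) + 1) * (4 * (R : ℝ)) ^ n * (a * R) :=
              mul_le_mul_of_nonneg_left h3 (by positivity)
          _ = K * a * (R : ℝ) ^ (n + 1) := by rw [hK, mul_pow]; ring
      calc m * ρ ^ (n + 1) - ∑ i, z i ^ (n + 1)
          = ∑ i : Fin m, (ρ ^ (n + 1) - z i ^ (n + 1)) := by
            rw [Finset.sum_sub_distrib]; simp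
        _ ≤ ∑ _i : Fin m, K * a * (R : ℝ) ^ (n + 1) := Finset.sum_le_sum fun i _ => h1 i
        _ = (m * K * a) * (R : ℝ) ^ (n + 1) := by simp; ring
        _ ≤ 1 / 2 * (R : ℝ) ^ (n + 1) := mul_le_mul_of_nonneg_right hma (by positivity)
    have hT1 : ρ ^ (n + 1) ≤ t - ∑ i, z i ^ (n + 1) := by
      have : t = m * ρ ^ (n + 1) + ρ ^ (n + 1) := by rw [htρ]; ring
      linarith
    have hT2 : t - ∑ i, z i ^ (n + 1) ≤ (3.9 * (R : ℝ)) ^ (n + 1) := by
      have h1 : t = m * ρ ^ (n + 1) + ρ ^ (n + 1) := by rw [htρ]; ring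
      have h2 : ρ ^ (n + 1) ≤ (3.1 * (R : ℝ)) ^ (n + 1) := pow_le_pow_left₀ hρ0 hρ2 _
      have h3 : (3.1 : ℝ) ^ (n + 1) + 1 / 2 ≤ 3.9 ^ (n + 1) := by
        have h4 : (3.1 : ℝ) ^ n ≤ 3.9 ^ n := pow_le_pow_left₀ (by norm_num) (by norm_num) _
        have h5 : (1 : ℝ) ≤ 3.1 ^ n := one_le_pow₀ (by norm_num)
        rw [pow_succ, pow_succ]
        nlinarith
      have h6 : (3.1 * (R : ℝ)) ^ (n + 1) + 1 / 2 * (R : ℝ) ^ (n + 1)
          ≤ (3.9 * (R : ℝ)) ^ (n + 1) := by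
        rw [mul_pow, mul_pow]
        have h7 : (0 : ℝ) < (R : ℝ) ^ (n + 1) := by positivity
        nlinarith
      linarith
    have hT0 : 0 ≤ t - ∑ i, z i ^ (n + 1) := le_trans (by positivity) hT1
    have hv0 : 0 ≤ v z := Real.rpow_nonneg hT0 _
    have hvk : v z ^ (n + 1) = t - ∑ i, z i ^ (n + 1) :=
      Real.rpow_inv_natCast_pow hT0 (by omega)
    have hv1 : ρ ≤ v z := by
      refine le_of_pow_le_pow_left₀ (n := n + 1) (by omega) hv0 ?_
      rw [hvk]; exact hT1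
    have hv2 : v z ≤ 3.9 * (R : ℝ) := by
      refine le_of_pow_le_pow_left₀ (n := n + 1) (by omega) (by positivity) ?_
      rw [hvk]; exact hT2
    have hy1 : (R : ℝ) ≤ y := by linarith [hy.1]
    have hy2 : y ≤ 4 * (R : ℝ) := by linarith [hy.2]
    refine ⟨⟨fun i => ?_, fun i => ?_⟩, ?_⟩
    · refine Fin.cases ?_ (fun j => ?_) i
      · simpa using hy1
      · simpa using hzR j
    · refine Fin.cases ?_ (fun j => ?_) i
      · simpa using hy2
      · simpa using hz4 j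
    · show |∑ i, (Fin.cons y z : Fin (m + 1) → ℝ) i ^ (n + 1) - t| ≤ η / 2
      rw [Fin.sum_univ_succ]
      simp only [Fin.cons_zero, Fin.cons_succ]
      have h1 : y ^ (n + 1) + ∑ i, z i ^ (n + 1) - t = y ^ (n + 1) - v z ^ (n + 1) := by
        rw [hvk]; ring
      rw [h1, abs_of_nonneg (by
        have := pow_le_pow_left₀ hv0 hy.1 (n + 1)
        linarith)]
      have h2 := pow_diff hv0 hy.1 hy2 n
      have h3 : y - v z ≤ h := by linarith [hy.2]
      calc y ^ (n + 1) - v z ^ (n + 1) ≤ ((n : ℝ) + 1) * (4 * (R : ℝ)) ^ n * (y - v z) := h2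
        _ ≤ ((n : ℝ) + 1) * (4 * (R : ℝ)) ^ n * h := mul_le_mul_of_nonneg_left h3 (by positivity)
        _ = η / 2 := by
            rw [hh, hK, mul_pow]
            field_simp
  -- measures
  set e := MeasurableEquiv.piFinSuccAbove (fun _ : Fin (m + 1) => ℝ) 0 with he
  have hmp : MeasurePreserving e := volume_preserving_piFinSuccAbove (fun _ : Fin (m + 1) => ℝ) 0
  set E' : Set (ℝ × (Fin m → ℝ)) := {p | p.2 ∈ box ∧ p.1 ∈ Set.Icc (v p.2) (v p.2 + h)} with hE'
  have hE'm : MeasurableSet E' := by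
    have h1 : IsClosed E' := by
      refine IsClosed.inter (s₁ := {p : ℝ × (Fin m → ℝ) | p.2 ∈ box})
        (s₂ := {p | p.1 ∈ Set.Icc (v p.2) (v p.2 + h)}) (isClosed_Icc.preimage continuous_snd) ?_
      exact IsClosed.inter (isClosed_le (hvc.comp continuous_snd) continuous_fst)
        (isClosed_le continuous_fst ((hvc.comp continuous_snd).add continuous_const))
    exact h1.measurableSet
  have hsub : E' ⊆ e.symm ⁻¹' (EE (n + 1) (m + 1) R η t) := by
    rintro ⟨y, z⟩ ⟨hz, hy⟩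
    have h1 : e.symm (y, z) = (Fin.cons y z : Fin (m + 1) → ℝ) := by
      rw [he]
      funext i
      refine Fin.cases ?_ (fun j => ?_) i
      · simp [MeasurableEquiv.piFinSuccAbove, Fin.insertNthEquiv]
      · simp [MeasurableEquiv.piFinSuccAbove, Fin.insertNthEquiv]
    show e.symm (y, z) ∈ EE (n + 1) (m + 1) R η t
    rw [h1]
    exact key z hz y hy
  have hvol1 : volume (EE (n + 1) (m + 1) R η t) = volume (e.symm ⁻¹' (EE (n + 1) (m + 1) R η t)) :=
    ((hmp.symm e).measure_preimage (EE_closed _ _ _ _ _).measurableSet.nullMeasurableSet).symm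
  have hvol2 : ENNReal.ofReal h * volume box ≤ volume E' := by
    have h1 : (volume : Measure (ℝ × (Fin m → ℝ))) E'
        = ∫⁻ z, volume ((fun y => (y, z)) ⁻¹' E') := Measure.prod_apply_symm hE'm
    rw [h1]
    calc ENNReal.ofReal h * volume box = ∫⁻ _z in box, ENNReal.ofReal h := by
          rw [setLIntegral_const]
      _ ≤ ∫⁻ z in box, volume ((fun y => (y, z)) ⁻¹' E') := by
          refine setLIntegral_mono' measurableSet_Icc fun z hz => ?_
          have h2 : (fun y => (y, z)) ⁻¹' E' = Set.Icc (v z) (v z + h) := by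
            ext y
            exact ⟨fun h => h.2, fun h => ⟨hz, h⟩⟩
          rw [h2, Real.volume_Icc]
          exact ENNReal.ofReal_le_ofReal (by linarith)
      _ ≤ ∫⁻ z, volume ((fun y => (y, z)) ⁻¹' E') := setLIntegral_le_lintegral _ _
  have hvbox : volume box = ENNReal.ofReal ((a * R) ^ m) := by
    rw [hbox, Real.volume_Icc_pi]
    simp only [sub_sub_cancel, Finset.prod_const, Finset.card_univ, Fintype.card_fin]
    rw [ENNReal.ofReal_pow (by positivity)]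
  have hfin : volume (EE (n + 1) (m + 1) R η t) ≠ ⊤ :=
    ne_top_of_le_ne_top (isCompact_Icc.measure_lt_top.ne)
      (measure_mono Set.inter_subset_left)
  have hfinal : h * (a * R) ^ m ≤ (volume (EE (n + 1) (m + 1) R η t)).toReal := by
    rw [← ENNReal.ofReal_le_iff_le_toReal hfin, ENNReal.ofReal_mul hh0.le, ← hvbox, hvol1]
    exact hvol2.trans (measure_mono hsub)
  refine le_trans (le_of_eq ?_) (hfinal.trans (mu_ge_vol (n + 1) (m + 1) R hη))
  rw [Real.rpow_sub hR0, Real.rpow_natCast, Real.rpow_natCast, hh, mul_pow]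
  field_simp
  ring

end Pool.Agent.W5h6.SW
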