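import Pool.Agent.W5h6.SW.T1

set_option autoImplicit false

open MeasureTheory Set
open scoped Real FourierTransform ENNReal

namespace Pool.Agent.W5h6.SW

theorem continuous_fourier {f : ℝ → ℂ} (hf : Integrable f) : Continuous (𝓕 f) := by
  have h := VectorFourier.fourierIntegral_continuous (e := Real.fourierChar) (μ := (volume : Measure ℝ))
    (L := innerₗ ℝ) Real.continuous_fourierChar (by exact continuous_inner) hf
  exact h

/-- The range of `t` belonging to `R`. -/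
def Iv (k s R : ℕ) : Set ℝ := Icc (s * (1.4 * (R : ℝ)) ^ k) (s * (3.1 * (R : ℝ)) ^ k)

theorem per_theta {k s : ℕ} (hT : S_TRIV k) (hI : S_INV) (hR : S_REP k s) (hL : S_LOW k s)
    (hM : S_MU k s) :
    ∃ c₂ : ℝ, 0 < c₂ ∧ ∃ R₁ : ℕ, ∀ (R : ℕ) (h : ℝ), R₁ ≤ R → 0 < h → h ≤ 1 →
      ∀ θ : Fin s → ℝ, (∀ i, θ i ∈ Icc (0 : ℝ) 1) →
      ENNReal.ofReal ((c₂ * (h * (R : ℝ) ^ ((s : ℝ) - k))) ^ 2) *
          volume {t ∈ Iv k s R | cnt k s R h t θ ≤ c₂ * (h * (R : ℝ) ^ ((s : ℝ) - k))} ≤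
        ∫⁻ τ in (Icc (-τ0 k R) (τ0 k R))ᶜ,
          ENNReal.ofReal ((‖g h τ‖ * ‖∏ i, S k R τ (θ i) - J k R τ ^ s‖) ^ 2) := by
  obtain ⟨CL, hCL, hlow⟩ := hL
  obtain ⟨c, hc, hg⟩ := hI.2.1
  obtain ⟨c₁, hc₁, R₀, hmu⟩ := hM
  refine ⟨c₁ / 4, by positivity, max (max R₀ 1) ⌈(2 * c * CL / c₁) ^ 2⌉₊, ?_⟩
  intro R h hRR hh0 hh1 θ hθ
  have hR0 : R₀ ≤ R := (le_max_left _ _).trans ((le_max_left _ _).trans hRR)
  have hR1 : 1 ≤ R := (le_max_right _ _).trans ((le_max_left _ _).trans hRR)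
  have hR2 : (2 * c * CL / c₁) ^ 2 ≤ (R : ℝ) :=
    (Nat.le_ceil _).trans (by exact_mod_cast (le_max_right _ _).trans hRR)
  have hRpos : (0 : ℝ) < R := by exact_mod_cast hR1
  have hsq : 2 * c * CL / c₁ ≤ (R : ℝ) ^ ((1 : ℝ) / 2) := by
    rw [← Real.sqrt_eq_rpow]
    exact Real.le_sqrt_of_sq_le hR2
  have hint := integrable_hh hT hI s R hh0 θ
  have hmem := memLp_hh hT hI s R hh0 θ
  have hpl := Pool.Agent.H153R4.plancherel (hh k s R h θ) hint hmem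
  set X : ℝ := (R : ℝ) ^ ((s : ℝ) - k) with hX
  have hXpos : 0 < X := Real.rpow_pos_of_pos hRpos _
  -- the low part
  have hlowb : ∀ t : ℝ, ‖∫ τ in Icc (-τ0 k R) (τ0 k R), g h τ * ee (-(τ * t)) * Dl k s R θ τ‖ ≤
      c₁ / 2 * (h * X) := by
    intro t
    have hcD : Continuous fun τ => ‖Dl k s R θ τ‖ := (continuous_Dl' hT s R θ).norm
    have hi : IntegrableOn (fun τ => c * h * ‖Dl k s R θ τ‖) (Icc (-τ0 k R) (τ0 k R)) volume :=
      ((continuous_const.mul hcD).continuousOn).integrableOn_compact isCompact_Icc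
    calc ‖∫ τ in Icc (-τ0 k R) (τ0 k R), g h τ * ee (-(τ * t)) * Dl k s R θ τ‖
        ≤ ∫ τ in Icc (-τ0 k R) (τ0 k R), c * h * ‖Dl k s R θ τ‖ := by
          refine norm_integral_le_of_norm_le hi (Filter.Eventually.of_forall fun τ => ?_)
          rw [norm_mul, norm_mul, norm_ee, mul_one]
          exact mul_le_mul_of_nonneg_right ((hg h hh0).1 τ) (norm_nonneg _)
      _ = c * h * ∫ τ in Icc (-τ0 k R) (τ0 k R), ‖Dl k s R θ τ‖ := by
          rw [integral_const_mul]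
      _ ≤ c * h * (CL * (R : ℝ) ^ ((s : ℝ) - k - 1 / 2)) := by
          refine mul_le_mul_of_nonneg_left ?_ (by positivity)
          exact hlow R θ hR1 hθ
      _ = c * CL * (h * X) / (R : ℝ) ^ ((1 : ℝ) / 2) := by
          rw [Real.rpow_sub hRpos, hX]
          ring
      _ ≤ c₁ / 2 * (h * X) := by
          have hp : 0 < (R : ℝ) ^ ((1 : ℝ) / 2) := Real.rpow_pos_of_pos hRpos _
          rw [div_le_iff₀ hp]
          have : 2 * c * CL ≤ (R : ℝ) ^ ((1 : ℝ) / 2) * c₁ := (div_le_iff₀ hc₁).mp hsq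
          have h2 : 0 < h * X := by positivity
          nlinarith
  -- where the count vanishes the high part is large
  have hsub : {t ∈ Iv k s R | cnt k s R h t θ ≤ c₁ / 4 * (h * X)} ⊆
      {t | ENNReal.ofReal ((c₁ / 4 * (h * X)) ^ 2) ≤ ‖𝓕 (hh k s R h θ) t‖ₑ ^ 2} := by
    rintro t ⟨htI, ht0⟩
    have hsp := split hT hI hR R hh0 θ t
    have hm := hmu R h t hR0 hh0 hh1 htI
    have hl := hlowb t
    have h3 : 𝓕 (hh k s R h θ) t = (((cnt k s R h t θ - mu k s R h t : ℝ)) : ℂ) -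
        ∫ τ in Icc (-τ0 k R) (τ0 k R), g h τ * ee (-(τ * t)) * Dl k s R θ τ := by
      rw [← sub_eq_iff_eq_add'] at hsp
      rw [← hsp]
      push_cast
      ring
    have h4 : c₁ / 4 * (h * X) ≤ ‖𝓕 (hh k s R h θ) t‖ := by
      rw [h3]
      have h5 := norm_sub_norm_le (((cnt k s R h t θ - mu k s R h t : ℝ)) : ℂ)
        (∫ τ in Icc (-τ0 k R) (τ0 k R), g h τ * ee (-(τ * t)) * Dl k s R θ τ)
      rw [Complex.norm_real, Real.norm_eq_abs] at h5
      have h7 : mu k s R h t - cnt k s R h t θ ≤ |cnt k s R h t θ - mu k s R h t| := by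
        rw [abs_sub_comm]
        exact le_abs_self _
      have h8 : 0 < h * X := by positivity
      linarith
    have h6 : 0 ≤ c₁ / 4 * (h * X) := by positivity
    show ENNReal.ofReal ((c₁ / 4 * (h * X)) ^ 2) ≤ ‖𝓕 (hh k s R h θ) t‖ₑ ^ 2
    rw [← ofReal_norm, ← ENNReal.ofReal_pow (norm_nonneg _)]
    exact ENNReal.ofReal_le_ofReal (pow_le_pow_left₀ h6 h4 2)
  have hmeas : Measurable fun t => ‖𝓕 (hh k s R h θ) t‖ₑ ^ 2 :=
    ((continuous_fourier hint).enorm.measurable).pow_const 2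
  calc ENNReal.ofReal ((c₁ / 4 * (h * X)) ^ 2) *
        volume {t ∈ Iv k s R | cnt k s R h t θ ≤ c₁ / 4 * (h * X)}
      ≤ ENNReal.ofReal ((c₁ / 4 * (h * X)) ^ 2) *
          volume {t | ENNReal.ofReal ((c₁ / 4 * (h * X)) ^ 2) ≤ ‖𝓕 (hh k s R h θ) t‖ₑ ^ 2} := by
        gcongr
    _ ≤ ∫⁻ t, ‖𝓕 (hh k s R h θ) t‖ₑ ^ 2 := mul_meas_ge_le_lintegral hmeas _
    _ = ∫⁻ τ, ‖hh k s R h θ τ‖ₑ ^ 2 := hpl
    _ = _ := by
        rw [← lintegral_indicator measurableSet_Icc.compl]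
        refine lintegral_congr fun τ => ?_
        unfold hh
        by_cases hτ : τ ∈ (Icc (-τ0 k R) (τ0 k R))ᶜ
        · simp only [indicator_of_mem hτ]
          rw [← ofReal_norm, ← ENNReal.ofReal_pow (norm_nonneg _), norm_mul]
          rfl
        · simp only [indicator_of_notMem hτ]
          simp

end Pool.Agent.W5h6.SW
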