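import Pool.Agent.W5h6.SW.T2

set_option autoImplicit false

open MeasureTheory Set Filter
open scoped Real FourierTransform ENNReal Topology

namespace Pool.Agent.W5h6.SW

/-- The solutions `x` in `[R, 4 R)^s`. -/
noncomputable def sols (k s R : ℕ) (h t : ℝ) (θ : Fin s → ℝ) : Finset (Fin s → ℕ) := by
  classical
  exact (Fintype.piFinset (fun _ : Fin s => Finset.Ico R (4 * R))).filter
    fun x => |∑ i, ((x i : ℝ) + θ i) ^ k - t| < h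

theorem cnt_le (k s R : ℕ) {h : ℝ} (h0 : 0 < h) (t : ℝ) (θ : Fin s → ℝ) :
    cnt k s R h t θ ≤ (sols k s R h t θ).card := by
  classical
  unfold cnt sols
  rw [Finset.card_filter, Nat.cast_sum]
  refine Finset.sum_le_sum fun x _ => ?_
  by_cases hx : |∑ i, ((x i : ℝ) + θ i) ^ k - t| < h
  · rw [if_pos hx]
    simpa using bump.le_one
  · rw [if_neg hx]
    have h6 : (bump.rOut : ℝ) ≤ dist ((∑ i, ((x i : ℝ) + θ i) ^ k - t) / h) 0 := by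
      rw [dist_zero_right, Real.norm_eq_abs, abs_div, abs_of_pos h0, le_div_iff₀ h0]
      show (1 : ℝ) * h ≤ _
      linarith [not_lt.mp hx]
    rw [bump.zero_of_le_dist h6]
    simp

/-- The exceptional shifts for `R`. -/
def Bad (k s R : ℕ) (h c : ℝ) : Set (Fin s → ℝ) :=
  {θ | ∃ t ∈ Icc ((s : ℝ) * (1.5 * (R : ℝ)) ^ k) (s * (3 * (R : ℝ)) ^ k),
    ((sols k s R (2 * h) t θ).card : ℝ) ≤ c * (h * (R : ℝ) ^ ((s : ℝ) - k))}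

theorem pow_gap {k s R : ℕ} (hk : 2 ≤ k) (hs : 1 ≤ s) (hR : 2 ≤ R) {a b : ℝ} (ha : 1 ≤ a)
    (hab : a ≤ b) (h : a ^ 2 + 1 / 4 ≤ b ^ 2) :
    (s : ℝ) * (a * (R : ℝ)) ^ k + 1 ≤ s * (b * (R : ℝ)) ^ k := by
  obtain ⟨m, rfl⟩ : ∃ m, k = m + 2 := ⟨k - 2, by omega⟩
  have hR' : (2 : ℝ) ≤ R := by exact_mod_cast hR
  have hs' : (1 : ℝ) ≤ s := by exact_mod_cast hs
  have h1 : (a * (R : ℝ)) ^ m ≤ (b * (R : ℝ)) ^ m :=
    pow_le_pow_left₀ (by positivity) (mul_le_mul_of_nonneg_right hab (by positivity)) m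
  have h2 : (1 : ℝ) ≤ (b * (R : ℝ)) ^ m := one_le_pow₀ (by nlinarith)
  have h3 : (a * (R : ℝ)) ^ (m + 2) + 1 ≤ (b * (R : ℝ)) ^ (m + 2) := by
    rw [pow_add, pow_add]
    have h4 : (a * (R : ℝ)) ^ 2 + 1 ≤ (b * (R : ℝ)) ^ 2 := by
      have : (4 : ℝ) ≤ (R : ℝ) ^ 2 := by nlinarith
      nlinarith
    have h5 : (a * (R : ℝ)) ^ m * (a * (R : ℝ)) ^ 2 ≤ (b * (R : ℝ)) ^ m * (a * (R : ℝ)) ^ 2 :=
      mul_le_mul_of_nonneg_right h1 (by positivity)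
    nlinarith
  nlinarith

theorem vol_ge {k s R : ℕ} (hk : 2 ≤ k) (hs : 1 ≤ s) (hR : 2 ≤ R) {h : ℝ} (h0 : 0 < h)
    (h1 : h ≤ 1) {c : ℝ} {θ : Fin s → ℝ} (hθ : θ ∈ Bad k s R h c) :
    ENNReal.ofReal (2 * h) ≤ volume {t ∈ Iv k s R | cnt k s R h t θ ≤
      c * (h * (R : ℝ) ^ ((s : ℝ) - k))} := by
  obtain ⟨t₀, ht₀, hx⟩ := hθ
  have e1 : volume (Ioo (t₀ - h) (t₀ + h)) = ENNReal.ofReal (2 * h) := by
    rw [Real.volume_Ioo]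
    congr 1
    ring
  rw [← e1]
  refine measure_mono fun t ht => ?_
  have g1 := pow_gap (k := k) (s := s) (R := R) hk hs hR (a := 1.4) (b := 1.5) (by norm_num)
    (by norm_num) (by norm_num)
  have g2 := pow_gap (k := k) (s := s) (R := R) hk hs hR (a := 3) (b := 3.1) (by norm_num)
    (by norm_num) (by norm_num)
  refine ⟨⟨by linarith [ht.1, ht₀.1], by linarith [ht.2, ht₀.2]⟩, ?_⟩
  refine (cnt_le k s R h0 t θ).trans (le_trans ?_ hx)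
  norm_cast
  refine Finset.card_le_card fun x hxm => ?_
  unfold sols at hxm ⊢
  rw [Finset.mem_filter] at hxm ⊢
  refine ⟨hxm.1, ?_⟩
  have h4 : |∑ i, ((x i : ℝ) + θ i) ^ k - t₀| ≤ |∑ i, ((x i : ℝ) + θ i) ^ k - t| + |t - t₀| := by
    have := abs_add_le (∑ i, ((x i : ℝ) + θ i) ^ k - t) (t - t₀)
    simpa using this
  have h5 : |t - t₀| < h := by
    rw [abs_lt]
    exact ⟨by linarith [ht.1], by linarith [ht.2]⟩
  linarith [hxm.2]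

theorem measurable_Psi {k : ℕ} (hT : S_TRIV k) (hI : S_INV) (s R : ℕ) {h : ℝ} (h0 : 0 < h) :
    Measurable fun θ : Fin s → ℝ => ∫⁻ τ in (Icc (-τ0 k R) (τ0 k R))ᶜ,
      ENNReal.ofReal ((‖g h τ‖ * ‖∏ i, S k R τ (θ i) - J k R τ ^ s‖) ^ 2) := by
  refine Measurable.lintegral_prod_right' (f := fun p : (Fin s → ℝ) × ℝ =>
    ENNReal.ofReal ((‖g h p.2‖ * ‖∏ i, S k R p.2 (p.1 i) - J k R p.2 ^ s‖) ^ 2)) ?_
  have h1 : Continuous fun p : (Fin s → ℝ) × ℝ => Dl k s R p.1 p.2 := continuous_Dl hT s R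
  have h2 : Continuous fun p : (Fin s → ℝ) × ℝ => g h p.2 := (hI.1 h h0).1.comp continuous_snd
  exact (ENNReal.continuous_ofReal.comp ((h2.norm.mul h1.norm).pow 2)).measurable

/-- The measure of the exceptional shifts. -/
theorem bad_le {k s : ℕ} (hk : 2 ≤ k) (hs : 1 ≤ s) (hT : S_TRIV k) (hI : S_INV) (hR : S_REP k s)
    (hL : S_LOW k s) (hM : S_MU k s) (hH : S_HIGH k s) :
    ∃ c₂ : ℝ, 0 < c₂ ∧ ∃ C : ℝ, 0 < C ∧ ∃ R₁ : ℕ, ∀ (R : ℕ) (h : ℝ), R₁ ≤ R → 2 ≤ R →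
      0 < h → h ≤ 1 → (volume.restrict (Icc (0 : Fin s → ℝ) 1)) (Bad k s R h c₂) ≤
        ENNReal.ofReal (C * Real.log R ^ s * (h ^ (-2 : ℝ) * (R : ℝ) ^ (2 * (k : ℝ) - s) +
          h ^ (-1 : ℝ) * (R : ℝ) ^ ((k : ℝ) - 3 / 4 * (s - 1)))) := by
  obtain ⟨c₂, hc₂, R₁, hP⟩ := per_theta hT hI hR hL hM
  obtain ⟨c, hc, hg⟩ := hI.2.1
  obtain ⟨CH, hCH, hhigh⟩ := hH
  refine ⟨c₂, hc₂, CH * c ^ 2 / (2 * c₂ ^ 2), by positivity, R₁, ?_⟩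
  intro R h hRR hR2 h0 h1
  have hRpos : (0 : ℝ) < R := by exact_mod_cast (by omega : 0 < R)
  set X : ℝ := (R : ℝ) ^ ((s : ℝ) - k) with hX
  have hXpos : 0 < X := Real.rpow_pos_of_pos hRpos _
  set Ψ : (Fin s → ℝ) → ℝ≥0∞ := fun θ => ∫⁻ τ in (Icc (-τ0 k R) (τ0 k R))ᶜ,
      ENNReal.ofReal ((‖g h τ‖ * ‖∏ i, S k R τ (θ i) - J k R τ ^ s‖) ^ 2) with hΨ
  have hΨm : Measurable Ψ := measurable_Psi hT hI s R h0
  set ε : ℝ := (c₂ * (h * X)) ^ 2 * (2 * h) with hε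
  have hεpos : 0 < ε := by positivity
  have hsub : Bad k s R h c₂ ∩ Icc (0 : Fin s → ℝ) 1 ⊆ {θ | ENNReal.ofReal ε ≤ Ψ θ} := by
    rintro θ ⟨hθ, hbox⟩
    have hbox' : ∀ i, θ i ∈ Icc (0 : ℝ) 1 := fun i => ⟨hbox.1 i, hbox.2 i⟩
    have e1 := hP R h hRR h0 h1 θ hbox'
    have e2 := vol_ge hk hs hR2 h0 h1 hθ
    show ENNReal.ofReal ε ≤ Ψ θ
    rw [hε, ENNReal.ofReal_mul (by positivity)]
    exact (mul_le_mul_right e2 _).trans e1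
  have hmark : ENNReal.ofReal ε * (volume.restrict (Icc (0 : Fin s → ℝ) 1)) (Bad k s R h c₂) ≤
      ENNReal.ofReal (CH * c ^ 2 * Real.log R ^ s *
      (h * (R : ℝ) ^ s + h ^ 2 * (R : ℝ) ^ (2 * (s : ℝ) - k - 3 / 4 * (s - 1)))) := by
    have e3 : (volume.restrict (Icc (0 : Fin s → ℝ) 1)) (Bad k s R h c₂) ≤
        (volume.restrict (Icc (0 : Fin s → ℝ) 1)) {θ | ENNReal.ofReal ε ≤ Ψ θ} := by
      rw [Measure.restrict_apply' measurableSet_Icc, Measure.restrict_apply' measurableSet_Icc]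
      exact measure_mono fun θ hθ => ⟨hsub hθ, hθ.2⟩
    calc _ ≤ ENNReal.ofReal ε *
          (volume.restrict (Icc (0 : Fin s → ℝ) 1)) {θ | ENNReal.ofReal ε ≤ Ψ θ} := by gcongr
      _ ≤ ∫⁻ θ in Icc (0 : Fin s → ℝ) 1, Ψ θ := mul_meas_ge_le_lintegral hΨm _
      _ ≤ _ := hhigh R h c (g h) hR2 h0 hc (hI.1 h h0).1 (hg h h0).1 (hg h h0).2.1 (hg h h0).2.2
  have hfin : (volume.restrict (Icc (0 : Fin s → ℝ) 1)) (Bad k s R h c₂) ≤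
      ENNReal.ofReal (CH * c ^ 2 * Real.log R ^ s *
      (h * (R : ℝ) ^ s + h ^ 2 * (R : ℝ) ^ (2 * (s : ℝ) - k - 3 / 4 * (s - 1)))) /
        ENNReal.ofReal ε := by
    rw [ENNReal.le_div_iff_mul_le (Or.inl (by simpa using hεpos)) (Or.inl ENNReal.ofReal_ne_top),
      mul_comm]
    exact hmark
  rw [← ENNReal.ofReal_div_of_pos hεpos] at hfin
  refine hfin.trans (ENNReal.ofReal_le_ofReal (le_of_eq ?_))
  have r1 : h ^ (-2 : ℝ) = (h ^ 2)⁻¹ := by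
    rw [Real.rpow_neg h0.le]
    norm_num
  have r2 : h ^ (-1 : ℝ) = h⁻¹ := by
    rw [Real.rpow_neg h0.le]
    norm_num
  have r3 : (R : ℝ) ^ (2 * (k : ℝ) - s) = (R : ℝ) ^ s / X ^ 2 := by
    rw [hX, ← Real.rpow_natCast (R : ℝ) s, ← Real.rpow_natCast _ 2, ← Real.rpow_mul hRpos.le,
      ← Real.rpow_sub hRpos]
    congr 1
    push_cast
    ring
  have r4 : (R : ℝ) ^ ((k : ℝ) - 3 / 4 * (s - 1)) =
      (R : ℝ) ^ (2 * (s : ℝ) - k - 3 / 4 * (s - 1)) / X ^ 2 := by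
    rw [hX, ← Real.rpow_natCast _ 2, ← Real.rpow_mul hRpos.le, ← Real.rpow_sub hRpos]
    congr 1
    push_cast
    ring
  rw [r1, r2, r3, r4, hε]
  field_simp

end Pool.Agent.W5h6.SW
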